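import Mathlib
import Pool.Agent.W242.IM.Herm
import Pool.Agent.Y820.LB.Sub

/-!
# A weighted Jensen formula on the unit circle

With the weight `1 - cos (4 π t) = 2 - tc t ^ 2 / 2` the arcsine distribution on `[-2, 2]` becomes the
semicircle distribution.
-/

set_option autoImplicit false

namespace Q262.NS

open MeasureTheory Polynomial Filter Topology
open Pool.Agent.H261R2.CM (ez D_norm_ez D_circleAverage D_ez_eq)
open Pool.Agent.W242.IM

noncomputable section

/-- integral of a nontrivial character -/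
theorem int_char (m : ℤ) (hm : m ≠ 0) :
    ∫ t in (0:ℝ)..1, Complex.exp (2 * (Real.pi : ℂ) * Complex.I * (m : ℂ) * (t : ℂ)) = 0 := by
  have hc : (2 * (Real.pi : ℂ) * Complex.I * (m : ℂ)) ≠ 0 :=
    mul_ne_zero Complex.two_pi_I_ne_zero (by exact_mod_cast hm)
  rw [integral_exp_mul_complex hc]
  have h1 : Complex.exp (2 * (Real.pi : ℂ) * Complex.I * (m : ℂ) * ((1:ℝ) : ℂ)) = 1 := by
    rw [Complex.ofReal_one, mul_one]
    have := Complex.exp_int_mul_two_pi_mul_I m
    rw [← this]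
    congr 1
    ring
  rw [h1]
  simp

theorem ez_pow (t : ℝ) (m : ℕ) :
    ez t ^ m = Complex.exp (2 * (Real.pi : ℂ) * Complex.I * ((m : ℤ) : ℂ) * (t : ℂ)) := by
  unfold ez
  rw [← Complex.exp_nat_mul]
  congr 1
  push_cast
  ring

/-- the cosine of `4 π t` -/
def c4 (t : ℝ) : ℝ := Real.cos (4 * Real.pi * t)

theorem c4_eq (t : ℝ) : ((c4 t : ℝ) : ℂ) =
    (Complex.exp (2 * (Real.pi : ℂ) * Complex.I * ((2 : ℤ) : ℂ) * (t : ℂ)) +
      Complex.exp (2 * (Real.pi : ℂ) * Complex.I * ((-2 : ℤ) : ℂ) * (t : ℂ))) / 2 := by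
  unfold c4
  rw [Complex.ofReal_cos, Complex.cos]
  congr 2
  · congr 1
    push_cast
    ring
  · congr 1
    push_cast
    ring

theorem int_pow (m : ℕ) : ∫ t in (0:ℝ)..1, ez t ^ m * ((c4 t : ℝ) : ℂ) =
    if m = 2 then 1 / 2 else 0 := by
  have h1 : ∀ t : ℝ, ez t ^ m * ((c4 t : ℝ) : ℂ) =
      (1 / 2 : ℂ) * Complex.exp (2 * (Real.pi : ℂ) * Complex.I * (((m : ℤ) + 2 : ℤ) : ℂ) * (t : ℂ)) +
      (1 / 2 : ℂ) * Complex.exp (2 * (Real.pi : ℂ) * Complex.I * (((m : ℤ) - 2 : ℤ) : ℂ) * (t : ℂ)) := by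
    intro t
    rw [ez_pow, c4_eq, mul_div_assoc', mul_add, ← Complex.exp_add, ← Complex.exp_add]
    have e1 : 2 * (Real.pi : ℂ) * Complex.I * ((m : ℤ) : ℂ) * (t : ℂ) +
        2 * (Real.pi : ℂ) * Complex.I * ((2 : ℤ) : ℂ) * (t : ℂ) =
        2 * (Real.pi : ℂ) * Complex.I * (((m : ℤ) + 2 : ℤ) : ℂ) * (t : ℂ) := by
      push_cast
      ring
    have e2 : 2 * (Real.pi : ℂ) * Complex.I * ((m : ℤ) : ℂ) * (t : ℂ) +
        2 * (Real.pi : ℂ) * Complex.I * ((-2 : ℤ) : ℂ) * (t : ℂ) =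
        2 * (Real.pi : ℂ) * Complex.I * (((m : ℤ) - 2 : ℤ) : ℂ) * (t : ℂ) := by
      push_cast
      ring
    rw [e1, e2]
    ring
  have hc : ∀ k : ℤ, Continuous fun t : ℝ =>
      (1 / 2 : ℂ) * Complex.exp (2 * (Real.pi : ℂ) * Complex.I * (k : ℂ) * (t : ℂ)) := by
    intro k
    fun_prop
  simp_rw [h1]
  rw [intervalIntegral.integral_add ((hc _).intervalIntegrable _ _)
    ((hc _).intervalIntegrable _ _), intervalIntegral.integral_const_mul,
    intervalIntegral.integral_const_mul, int_char _ (by omega)]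
  by_cases hm : m = 2
  · subst hm
    simp
  · rw [int_char _ (by omega), if_neg hm]
    simp

theorem int_c4 : ∫ t in (0:ℝ)..1, c4 t = 0 := by
  have h1 := int_pow 0
  simp only [pow_zero, one_mul] at h1
  rw [intervalIntegral.integral_ofReal] at h1
  simpa using h1

theorem continuous_c4 : Continuous c4 := by
  unfold c4
  fun_prop

theorem abs_c4_le (t : ℝ) : |c4 t| ≤ 1 := Real.abs_cos_le_one _

theorem continuous_ez : Continuous ez := by
  unfold ez
  fun_prop

/-- the expansion of the logarithm for `|β| > 1` -/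
theorem log_series (β : ℂ) (hβ : 1 < ‖β‖) (t : ℝ) :
    HasSum (fun n : ℕ => ((ez t / β) ^ n / n).re) (Real.log ‖β‖ - Real.log ‖ez t - β‖) := by
  have hβ0 : β ≠ 0 := by
    rintro rfl
    rw [norm_zero] at hβ
    linarith
  have h1 : ‖ez t / β‖ < 1 := by
    rw [norm_div, D_norm_ez]
    exact (div_lt_one (by linarith)).mpr hβ
  have h2 := Complex.hasSum_re (Complex.hasSum_taylorSeries_neg_log h1)
  have h3 : (-Complex.log (1 - ez t / β)).re = Real.log ‖β‖ - Real.log ‖ez t - β‖ := by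
    rw [Complex.neg_re, Complex.log_re]
    have h4 : 1 - ez t / β = (β - ez t) / β := by field_simp
    have h5 : β - ez t ≠ 0 := by
      intro h0
      have h6 : β = ez t := sub_eq_zero.mp h0
      rw [h6, D_norm_ez] at hβ
      linarith
    rw [h4, norm_div, Real.log_div (norm_ne_zero_iff.mpr h5) (norm_ne_zero_iff.mpr hβ0),
      norm_sub_rev]
    ring
  rw [h3] at h2
  exact h2

/-- the second Fourier coefficient of `log |z - β|` for `|β| > 1` -/
theorem int_out (β : ℂ) (hβ : 1 < ‖β‖) :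
    ∫ t in (0:ℝ)..1, (Real.log ‖β‖ - Real.log ‖ez t - β‖) * c4 t = (β⁻¹ ^ 2).re / 4 := by
  have hb0 : 0 ≤ ‖β‖⁻¹ := by positivity
  have hb1 : ‖β‖⁻¹ < 1 := inv_lt_one_of_one_lt₀ hβ
  have hn : ∀ (n : ℕ) (t : ℝ), ‖(ez t / β) ^ n / n‖ ≤ ‖β‖⁻¹ ^ n := by
    intro n t
    rw [norm_div, norm_pow, norm_div, D_norm_ez, one_div]
    rcases Nat.eq_zero_or_pos n with rfl | hpos
    · simp
    · refine div_le_self (by positivity) ?_
      rw [Complex.norm_natCast]
      exact_mod_cast hpos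
  have h1 := intervalIntegral.hasSum_integral_of_dominated_convergence
    (μ := volume) (a := (0:ℝ)) (b := 1)
    (F := fun (n : ℕ) (t : ℝ) => ((ez t / β) ^ n / n).re * c4 t)
    (f := fun t => (Real.log ‖β‖ - Real.log ‖ez t - β‖) * c4 t)
    (fun n _ => ‖β‖⁻¹ ^ n) ?_ ?_ ?_ ?_ ?_
  · have h2 : ∀ n : ℕ, ∫ t in (0:ℝ)..1, ((ez t / β) ^ n / n).re * c4 t =
        if n = 2 then (β⁻¹ ^ 2).re / 4 else 0 := by
      intro n
      have h3 : ∀ t : ℝ, ((ez t / β) ^ n / n).re * c4 t =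
          (β⁻¹ ^ n / n * (ez t ^ n * ((c4 t : ℝ) : ℂ))).re := by
        intro t
        have h4 : β⁻¹ ^ n / n * (ez t ^ n * ((c4 t : ℝ) : ℂ)) =
            ((ez t / β) ^ n / n) * ((c4 t : ℝ) : ℂ) := by
          rw [div_eq_mul_inv (ez t), mul_pow]
          ring
        rw [h4, Complex.re_mul_ofReal]
      simp_rw [h3]
      have h5 : Continuous fun t : ℝ => β⁻¹ ^ n / n * (ez t ^ n * ((c4 t : ℝ) : ℂ)) := by
        have := continuous_ez
        have := continuous_c4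
        fun_prop
      have h6 := intervalIntegral.intervalIntegral_re (𝕜 := ℂ) (μ := volume) (a := (0:ℝ)) (b := 1)
        (f := fun t : ℝ => β⁻¹ ^ n / n * (ez t ^ n * ((c4 t : ℝ) : ℂ)))
        (h5.intervalIntegrable _ _)
      have h7 : ∫ t in (0:ℝ)..1, (β⁻¹ ^ n / n * (ez t ^ n * ((c4 t : ℝ) : ℂ))).re =
          (∫ t in (0:ℝ)..1, β⁻¹ ^ n / n * (ez t ^ n * ((c4 t : ℝ) : ℂ))).re := h6
      rw [h7, intervalIntegral.integral_const_mul, int_pow]
      by_cases hn2 : n = 2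
      · subst hn2
        rw [if_pos rfl, if_pos rfl]
        have h8 : β⁻¹ ^ 2 / ((2 : ℕ) : ℂ) * (1 / 2) = ((1 / 4 : ℝ) : ℂ) * β⁻¹ ^ 2 := by
          push_cast
          ring
        rw [h8, Complex.re_ofReal_mul]
        ring
      · rw [if_neg hn2, if_neg hn2]
        simp
    simp_rw [h2] at h1
    exact h1.unique (hasSum_ite_eq (2 : ℕ) ((β⁻¹ ^ 2).re / 4))
  · intro n
    have h5 : Continuous fun t : ℝ => ((ez t / β) ^ n / n).re * c4 t := by
      have := continuous_ez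
      have := continuous_c4
      fun_prop
    exact h5.aestronglyMeasurable
  · intro n
    refine ae_of_all _ fun t _ => ?_
    rw [norm_mul, Real.norm_eq_abs, Real.norm_eq_abs]
    calc |((ez t / β) ^ n / n).re| * |c4 t| ≤ ‖(ez t / β) ^ n / n‖ * 1 :=
          mul_le_mul (Complex.abs_re_le_norm _) (abs_c4_le t) (abs_nonneg _) (norm_nonneg _)
      _ ≤ ‖β‖⁻¹ ^ n := by rw [mul_one]; exact hn n t
  · exact ae_of_all _ fun t _ => summable_geometric_of_lt_one hb0 hb1
  · exact intervalIntegrable_const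
  · exact ae_of_all _ fun t _ => (log_series β hβ t).mul_right (c4 t)

end

end Q262.NS
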