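import Mathlib
import Pool.Agent.Q262.NS.Fou

/-!
# The weighted Jensen formula for the trace coordinate
-/

set_option autoImplicit false

namespace Q262.NS

open MeasureTheory Polynomial Filter Topology
open Pool.Agent.H261R2.CM (ez D_norm_ez D_circleAverage D_ez_eq)
open Pool.Agent.W242.IM
open Pool.Agent.Y820.LB (integrable_log)

noncomputable section

theorem ii_log (β : ℂ) : IntervalIntegrable (fun t => Real.log ‖ez t - β‖) volume 0 1 := by
  have h := integrable_log (X - C β)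
  simpa using h

theorem ii_logc (β : ℂ) :
    IntervalIntegrable (fun t => Real.log ‖ez t - β‖ * c4 t) volume 0 1 :=
  (ii_log β).mul_continuousOn continuous_c4.continuousOn

theorem jensen (β : ℂ) : ∫ t in (0:ℝ)..1, Real.log ‖ez t - β‖ = Real.posLog ‖β‖ := by
  rw [← logMahlerMeasure_X_sub_C, logMahlerMeasure_def, D_circleAverage]
  refine intervalIntegral.integral_congr fun t _ => ?_
  simp

theorem ae_ez_ne (β : ℂ) : ∀ᵐ t : ℝ, ez t ≠ β := by
  filter_upwards [ae_eval_ne (X - C β) (X_sub_C_ne_zero β)] with t ht h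
  apply ht
  rw [h]
  simp

/-- the second Fourier coefficient -/
def Ic (β : ℂ) : ℝ := ∫ t in (0:ℝ)..1, Real.log ‖ez t - β‖ * c4 t

theorem Ic_out (β : ℂ) (hβ : 1 < ‖β‖) : Ic β = -((β⁻¹ ^ 2).re / 4) := by
  have h1 := int_out β hβ
  have h2 : ∀ t : ℝ, (Real.log ‖β‖ - Real.log ‖ez t - β‖) * c4 t =
      Real.log ‖β‖ * c4 t - Real.log ‖ez t - β‖ * c4 t := fun t => by ring
  simp_rw [h2] at h1
  rw [intervalIntegral.integral_sub ((continuous_c4.intervalIntegrable _ _).const_mul _)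
    (ii_logc β), intervalIntegral.integral_const_mul, int_c4, mul_zero, zero_sub] at h1
  unfold Ic
  linarith

theorem norm_scale (z β : ℂ) (hz : ‖z‖ = 1) (hβ : ‖β‖ = 1) (s : ℝ) (hs : 1 ≤ s) :
    ‖z - β‖ ≤ ‖z - (s : ℂ) * β‖ := by
  have h1 : ‖z - β‖ ^ 2 = 2 - 2 * (z * (starRingEnd ℂ) β).re := by
    rw [← Complex.normSq_eq_norm_sq, Complex.normSq_sub, Complex.normSq_eq_norm_sq,
      Complex.normSq_eq_norm_sq, hz, hβ]
    ring
  have h2 : ‖z - (s : ℂ) * β‖ ^ 2 = 1 + s ^ 2 - 2 * s * (z * (starRingEnd ℂ) β).re := by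
    rw [← Complex.normSq_eq_norm_sq, Complex.normSq_sub, Complex.normSq_eq_norm_sq,
      Complex.normSq_eq_norm_sq, norm_mul, hz, hβ, Complex.norm_real, Real.norm_eq_abs, mul_one,
      sq_abs, map_mul, Complex.conj_ofReal]
    have h3 : z * ((s : ℂ) * (starRingEnd ℂ) β) = (s : ℂ) * (z * (starRingEnd ℂ) β) := by ring
    rw [h3, Complex.re_ofReal_mul]
    ring
  have h4 : (z * (starRingEnd ℂ) β).re ≤ 1 := by
    refine (Complex.re_le_norm _).trans ?_
    rw [norm_mul, hz, Complex.norm_conj, hβ, one_mul]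
  have h5 : ‖z - β‖ ^ 2 ≤ ‖z - (s : ℂ) * β‖ ^ 2 := by
    rw [h1, h2]
    nlinarith [mul_nonneg (sub_nonneg.mpr hs) (by linarith : 0 ≤ s + 1 - 2 * (z * (starRingEnd ℂ) β).re)]
  exact (sq_le_sq₀ (norm_nonneg _) (norm_nonneg _)).mp h5

theorem Ic_diff (β : ℂ) (hβ : ‖β‖ = 1) (s : ℝ) (hs : 1 < s) :
    |Ic ((s : ℂ) * β) - Ic β| ≤ Real.log s := by
  have hs0 : 0 < s := by linarith
  have hns : ‖(s : ℂ) * β‖ = s := by
    rw [norm_mul, hβ, mul_one, Complex.norm_real, Real.norm_eq_abs, abs_of_pos hs0]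
  have h1 : Ic ((s : ℂ) * β) - Ic β = ∫ t in (0:ℝ)..1,
      (Real.log ‖ez t - (s : ℂ) * β‖ - Real.log ‖ez t - β‖) * c4 t := by
    unfold Ic
    rw [← intervalIntegral.integral_sub (ii_logc _) (ii_logc _)]
    refine intervalIntegral.integral_congr fun t _ => ?_
    ring
  have h2 : ∫ t in (0:ℝ)..1, (Real.log ‖ez t - (s : ℂ) * β‖ - Real.log ‖ez t - β‖) =
      Real.log s := by
    rw [intervalIntegral.integral_sub (ii_log _) (ii_log _), jensen, jensen, hns, hβ]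
    rw [Real.posLog_eq_log (by rw [abs_of_pos hs0]; exact hs.le)]
    simp
  rw [h1]
  have h3 : ∀ᵐ t : ℝ, |(Real.log ‖ez t - (s : ℂ) * β‖ - Real.log ‖ez t - β‖) * c4 t| ≤
      Real.log ‖ez t - (s : ℂ) * β‖ - Real.log ‖ez t - β‖ := by
    filter_upwards [ae_ez_ne β] with t ht
    have h4 : 0 < ‖ez t - β‖ := norm_pos_iff.mpr (sub_ne_zero.mpr ht)
    have h5 := Real.log_le_log h4 (norm_scale (ez t) β (D_norm_ez t) hβ s hs.le)
    rw [abs_mul, abs_of_nonneg (sub_nonneg.mpr h5)]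
    exact mul_le_of_le_one_right (sub_nonneg.mpr h5) (abs_c4_le t)
  calc |∫ t in (0:ℝ)..1, (Real.log ‖ez t - (s : ℂ) * β‖ - Real.log ‖ez t - β‖) * c4 t|
      ≤ ∫ t in (0:ℝ)..1, |(Real.log ‖ez t - (s : ℂ) * β‖ - Real.log ‖ez t - β‖) * c4 t| :=
        intervalIntegral.abs_integral_le_integral_abs zero_le_one
    _ ≤ ∫ t in (0:ℝ)..1, (Real.log ‖ez t - (s : ℂ) * β‖ - Real.log ‖ez t - β‖) := by
        refine intervalIntegral.integral_mono_ae zero_le_one ?_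
          ((ii_log _).sub (ii_log _)) h3
        have h6 : (fun t => |(Real.log ‖ez t - (s : ℂ) * β‖ - Real.log ‖ez t - β‖) * c4 t|) =
            fun t => |Real.log ‖ez t - (s : ℂ) * β‖ * c4 t - Real.log ‖ez t - β‖ * c4 t| := by
          funext t
          congr 1
          ring
        rw [h6]
        exact ((ii_logc _).sub (ii_logc _)).abs
    _ = Real.log s := h2

theorem Ic_unit (β : ℂ) (hβ : ‖β‖ = 1) : Ic β = -((β⁻¹ ^ 2).re / 4) := by
  have hβ0 : β ≠ 0 := by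
    rintro rfl
    rw [norm_zero] at hβ
    norm_num at hβ
  have h1 : Tendsto (fun s : ℝ => Ic ((s : ℂ) * β)) (𝓝[>] 1) (𝓝 (Ic β)) := by
    rw [tendsto_iff_dist_tendsto_zero]
    have h2 : Tendsto Real.log (𝓝[>] (1:ℝ)) (𝓝 0) := by
      have h3 := (Real.continuousAt_log (by norm_num : (1:ℝ) ≠ 0)).tendsto
      rw [Real.log_one] at h3
      exact h3.mono_left nhdsWithin_le_nhds
    refine squeeze_zero' (Eventually.of_forall fun _ => dist_nonneg) ?_ h2
    filter_upwards [self_mem_nhdsWithin] with s hs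
    rw [Real.dist_eq]
    exact Ic_diff β hβ s hs
  have h2 : Tendsto (fun s : ℝ => -((((s : ℂ) * β)⁻¹ ^ 2).re / 4)) (𝓝[>] 1)
      (𝓝 (-((β⁻¹ ^ 2).re / 4))) := by
    have h3 : ContinuousAt (fun s : ℝ => -((((s : ℂ) * β)⁻¹ ^ 2).re / 4)) 1 := by
      have h4 : ContinuousAt (fun s : ℝ => ((s : ℂ) * β)⁻¹) 1 := by
        refine ContinuousAt.inv₀ (by fun_prop) ?_
        simpa using hβ0
      have h5 : ContinuousAt (fun s : ℝ => (((s : ℂ) * β)⁻¹ ^ 2).re) 1 :=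
        Complex.continuous_re.continuousAt.comp (h4.pow 2)
      exact (h5.div_const 4).neg
    have h4 := h3.tendsto
    rw [Complex.ofReal_one, one_mul] at h4
    exact h4.mono_left nhdsWithin_le_nhds
  refine tendsto_nhds_unique (h1.congr' ?_) h2
  filter_upwards [self_mem_nhdsWithin] with s hs
  refine Ic_out _ ?_
  have hs1 : (1:ℝ) < s := hs
  rw [norm_mul, hβ, mul_one, Complex.norm_real, Real.norm_eq_abs, abs_of_pos (by linarith)]
  exact hs1

theorem Ic_ge (β : ℂ) (hβ : 1 ≤ ‖β‖) : Ic β = -((β⁻¹ ^ 2).re / 4) := by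
  rcases eq_or_lt_of_le hβ with h | h
  · exact Ic_unit β h.symm
  · exact Ic_out β h

theorem norm_inv (z β : ℂ) (hz : ‖z‖ = 1) (hβ : β ≠ 0) :
    ‖z - β⁻¹‖ = ‖z - (starRingEnd ℂ) β‖ / ‖β‖ := by
  have h1 : ‖(starRingEnd ℂ) z‖ = 1 := by rw [Complex.norm_conj, hz]
  have h2 : z * (starRingEnd ℂ) z = 1 := by
    rw [Complex.mul_conj, Complex.normSq_eq_norm_sq, hz]
    norm_num
  have h3 : z - β⁻¹ = z * ((starRingEnd ℂ) (((starRingEnd ℂ) β - z))) / β := by
    rw [map_sub, Complex.conj_conj, mul_sub, h2]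
    field_simp
  rw [h3, norm_div, norm_mul, hz, one_mul, Complex.norm_conj, norm_sub_rev]

theorem Ic_inv (β : ℂ) (hβ : 1 ≤ ‖β‖) : Ic β⁻¹ = -((β⁻¹ ^ 2).re / 4) := by
  have hβ0 : β ≠ 0 := by
    rintro rfl
    rw [norm_zero] at hβ
    norm_num at hβ
  have h1 : Ic β⁻¹ = ∫ t in (0:ℝ)..1, (Real.log ‖ez t - (starRingEnd ℂ) β‖ * c4 t -
      Real.log ‖β‖ * c4 t) := by
    unfold Ic
    refine intervalIntegral.integral_congr_ae ?_
    filter_upwards [ae_ez_ne ((starRingEnd ℂ) β)] with t ht _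
    rw [norm_inv _ _ (D_norm_ez t) hβ0, Real.log_div (norm_ne_zero_iff.mpr (sub_ne_zero.mpr ht))
      (norm_ne_zero_iff.mpr hβ0)]
    ring
  rw [h1, intervalIntegral.integral_sub (ii_logc _)
    ((continuous_c4.intervalIntegrable _ _).const_mul _), intervalIntegral.integral_const_mul,
    int_c4, mul_zero, sub_zero]
  have h2 := Ic_ge ((starRingEnd ℂ) β) (by rw [Complex.norm_conj]; exact hβ)
  unfold Ic at h2
  rw [h2, ← map_inv₀, ← map_pow, Complex.conj_re]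

/-! ### the trace coordinate -/

theorem tc_sub (t : ℝ) (α : ℂ) (hα : α ≠ 0) :
    ‖((tc t : ℝ) : ℂ) - (α + α⁻¹)‖ = ‖ez t - α‖ * ‖ez t - α⁻¹‖ := by
  have h1 : ez t * (((tc t : ℝ) : ℂ) - (α + α⁻¹)) = (ez t - α) * (ez t - α⁻¹) := by
    have h2 := ez_add_inv t
    have h3 : α * α⁻¹ = 1 := mul_inv_cancel₀ hα
    linear_combination -h2 - h3
  rw [← norm_mul, ← h1, norm_mul, D_norm_ez, one_mul]

theorem log_tc (α : ℂ) (hα : α ≠ 0) : ∀ᵐ t : ℝ, Real.log ‖((tc t : ℝ) : ℂ) - (α + α⁻¹)‖ =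
    Real.log ‖ez t - α‖ + Real.log ‖ez t - α⁻¹‖ := by
  filter_upwards [ae_ez_ne α, ae_ez_ne α⁻¹] with t h1 h2
  rw [tc_sub t α hα, Real.log_mul (norm_ne_zero_iff.mpr (sub_ne_zero.mpr h1))
    (norm_ne_zero_iff.mpr (sub_ne_zero.mpr h2))]

/-- the log potential of the arcsine distribution -/
def pc (a : ℂ) : ℝ := ∫ t in (0:ℝ)..1, Real.log ‖((tc t : ℝ) : ℂ) - a‖

/-- the log potential of the semicircle distribution -/
def sc (a : ℂ) : ℝ := ∫ t in (0:ℝ)..1, Real.log ‖((tc t : ℝ) : ℂ) - a‖ * (1 - c4 t)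

theorem exists_alpha (a : ℂ) : ∃ α : ℂ, 1 ≤ ‖α‖ ∧ α + α⁻¹ = a := by
  obtain ⟨s, hs⟩ := IsAlgClosed.exists_pow_nat_eq (a ^ 2 - 4) (n := 2) (by norm_num)
  set x := (a + s) / 2 with hx
  set y := (a - s) / 2 with hy
  have hxy : x * y = 1 := by
    rw [hx, hy]
    linear_combination (-1 / 4 : ℂ) * hs
  have hx0 : x ≠ 0 := left_ne_zero_of_mul_eq_one hxy
  have hy0 : y ≠ 0 := right_ne_zero_of_mul_eq_one hxy
  have hyx : x⁻¹ = y := inv_eq_of_mul_eq_one_right hxy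
  have hxy' : y⁻¹ = x := inv_eq_of_mul_eq_one_left hxy
  have hsum : x + y = a := by
    rw [hx, hy]
    ring
  rcases le_total 1 ‖x‖ with h | h
  · exact ⟨x, h, by rw [hyx, hsum]⟩
  · refine ⟨y, ?_, by rw [hxy', add_comm, hsum]⟩
    rw [← hyx, _root_.norm_inv]
    exact (one_le_inv₀ (norm_pos_iff.mpr hx0)).mpr h

theorem ii_tc (a : ℂ) :
    IntervalIntegrable (fun t => Real.log ‖((tc t : ℝ) : ℂ) - a‖) volume 0 1 := by
  obtain ⟨α, h1, rfl⟩ := exists_alpha a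
  have hα : α ≠ 0 := by
    rintro rfl
    rw [norm_zero] at h1
    norm_num at h1
  exact ((ii_log α).add (ii_log α⁻¹)).congr_ae
    (ae_restrict_of_ae ((log_tc α hα).mono fun t ht => ht.symm))

theorem ii_tcc (a : ℂ) : IntervalIntegrable
    (fun t => Real.log ‖((tc t : ℝ) : ℂ) - a‖ * (1 - c4 t)) volume 0 1 :=
  (ii_tc a).mul_continuousOn (by have := continuous_c4; fun_prop)

/-- the two potentials -/
theorem potentials (a : ℂ) : ∃ α : ℂ, 1 ≤ ‖α‖ ∧ α + α⁻¹ = a ∧ pc a = Real.log ‖α‖ ∧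
    sc a = Real.log ‖α‖ + (α⁻¹ ^ 2).re / 2 := by
  obtain ⟨α, h1, rfl⟩ := exists_alpha a
  have hα : α ≠ 0 := by
    rintro rfl
    rw [norm_zero] at h1
    norm_num at h1
  have hinv : ‖α⁻¹‖ ≤ 1 := by
    rw [_root_.norm_inv]
    exact inv_le_one_of_one_le₀ h1
  have hpc : pc (α + α⁻¹) = Real.log ‖α‖ := by
    unfold pc
    rw [intervalIntegral.integral_congr_ae ((log_tc α hα).mono fun t ht _ => ht),
      intervalIntegral.integral_add (ii_log _) (ii_log _), jensen, jensen,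
      Real.posLog_eq_log (by rw [abs_of_nonneg (norm_nonneg _)]; exact h1)]
    have h2 : Real.posLog ‖α⁻¹‖ = 0 := by
      rw [Real.posLog_eq_zero_iff, abs_of_nonneg (norm_nonneg _)]
      exact hinv
    rw [h2, add_zero]
  refine ⟨α, h1, rfl, hpc, ?_⟩
  have h3 : ∫ t in (0:ℝ)..1, Real.log ‖((tc t : ℝ) : ℂ) - (α + α⁻¹)‖ * c4 t =
      Ic α + Ic α⁻¹ := by
    unfold Ic
    rw [← intervalIntegral.integral_add (ii_logc _) (ii_logc _)]
    refine intervalIntegral.integral_congr_ae ?_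
    filter_upwards [log_tc α hα] with t ht _
    rw [ht]
    ring
  have h4 : sc (α + α⁻¹) = pc (α + α⁻¹) -
      ∫ t in (0:ℝ)..1, Real.log ‖((tc t : ℝ) : ℂ) - (α + α⁻¹)‖ * c4 t := by
    unfold sc pc
    rw [← intervalIntegral.integral_sub (ii_tc _)
      ((ii_tc _).mul_continuousOn continuous_c4.continuousOn)]
    refine intervalIntegral.integral_congr fun t _ => ?_
    ring
  rw [h4, h3, hpc, Ic_ge α h1, Ic_inv α h1]
  ring

end

end Q262.NS
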