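import Mathlib
import Pool.Agent.Q262.NS.Jen
import Pool.Agent.Q262.FR.Main

/-!
# The semicircle inequality for the eigenvalues of a perturbed Hermitian matrix
-/

set_option autoImplicit false

namespace Q262.NS

open MeasureTheory Polynomial Filter Topology
open Pool.Agent.H261R2.CM (ez D_norm_ez)
open Pool.Agent.W242.IM
open Pool.Agent.Y820.LB (Dom)

noncomputable section

/-- the excess of the semicircle potential outside `[-2, 2]`, as a function of the arcsine
potential -/
def Psi (s : ℝ) : ℝ := Real.sinh (2 * s) / 2 - s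

theorem Psi_log (r : ℝ) (hr : 1 ≤ r) : Psi (Real.log r) = (r ^ 2 - (r ^ 2)⁻¹) / 4 - Real.log r := by
  have h0 : 0 < r := by linarith
  have h1 : Real.exp (2 * Real.log r) = r ^ 2 := by
    rw [mul_comm, Real.exp_mul, Real.exp_log h0]
    norm_num
  unfold Psi
  rw [Real.sinh_eq, Real.exp_neg, h1]
  ring

theorem Psi_mono {a b : ℝ} (ha : 0 ≤ a) (hab : a ≤ b) : Psi a ≤ Psi b := by
  have h : MonotoneOn Psi (Set.Ici 0) := by
    refine monotoneOn_of_deriv_nonneg (convex_Ici 0) ?_ ?_ ?_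
    · unfold Psi
      fun_prop
    · unfold Psi
      fun_prop
    · intro x hx
      have h1 : HasDerivAt Psi (Real.cosh (2 * x) * 2 / 2 - 1) x := by
        have h2 : HasDerivAt (fun s : ℝ => 2 * s) 2 x := by
          simpa using (hasDerivAt_id x).const_mul (2:ℝ)
        exact ((h2.sinh).div_const 2).sub (hasDerivAt_id x)
      rw [h1.deriv]
      have := Real.one_le_cosh (2 * x)
      linarith
  exact h ha (ha.trans hab) hab

theorem Psi_zero : Psi 0 = 0 := by
  unfold Psi
  simp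

theorem Psi_nonneg {s : ℝ} (hs : 0 ≤ s) : 0 ≤ Psi s := by
  rw [← Psi_zero]
  exact Psi_mono le_rfl hs

theorem Psi_pos {s : ℝ} (hs : 0 < s) : 0 < Psi s := by
  unfold Psi
  have := Real.self_lt_sinh_iff.mpr (by linarith : 0 < 2 * s)
  linarith

theorem Psi_le {s B : ℝ} (hs : 0 ≤ s) (hB : s ≤ B) : Psi s ≤ Real.exp (2 * B) * s := by
  unfold Psi
  have h1 : Real.sinh (2 * s) ≤ 2 * s * Real.exp (2 * s) := by
    rw [Real.sinh_eq]
    have h2 := Real.add_one_le_exp (-(4 * s))
    have h3 : Real.exp (-(2 * s)) = Real.exp (2 * s) * Real.exp (-(4 * s)) := by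
      rw [← Real.exp_add]
      congr 1
      ring
    rw [h3]
    have h4 := Real.exp_pos (2 * s)
    nlinarith
  have h2 : Real.exp (2 * s) ≤ Real.exp (2 * B) := Real.exp_le_exp.mpr (by linarith)
  nlinarith [mul_le_mul_of_nonneg_left h2 hs]

theorem re_inv_sq (α : ℂ) (hα : α ≠ 0) : (α⁻¹ ^ 2).re = (α ^ 2).re * ((‖α‖ ^ 2)⁻¹) ^ 2 := by
  have h1 : α⁻¹ = (starRingEnd ℂ) α * (((‖α‖ ^ 2)⁻¹ : ℝ) : ℂ) := by
    rw [Complex.inv_def, Complex.normSq_eq_norm_sq]
  rw [h1, mul_pow, ← map_pow, ← Complex.ofReal_pow, Complex.re_mul_ofReal, Complex.conj_re]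

/-- lower bound for the semicircle potential -/
theorem sc_ge (a : ℂ) : (a ^ 2).re / 4 - 1 / 2 - Psi (pc a) ≤ sc a := by
  obtain ⟨α, h1, h2, h3, h4⟩ := potentials a
  have hα : α ≠ 0 := by
    rintro rfl
    rw [norm_zero] at h1
    norm_num at h1
  rw [h3, h4, Psi_log _ h1, ← h2]
  have h5 : (α + α⁻¹) ^ 2 = α ^ 2 + 2 + α⁻¹ ^ 2 := by
    have h6 : α * α⁻¹ = 1 := mul_inv_cancel₀ hα
    linear_combination 2 * h6
  rw [h5, Complex.add_re, Complex.add_re]
  have h7 := re_inv_sq α hα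
  have h8 : (α ^ 2).re ≤ ‖α‖ ^ 2 := by
    refine (Complex.re_le_norm _).trans ?_
    rw [norm_pow]
  have h9 : (2 : ℂ).re = 2 := rfl
  rw [h9]
  set q := (‖α‖ ^ 2)⁻¹ with hq
  have hr : 1 ≤ ‖α‖ ^ 2 := one_le_pow₀ h1
  have hq0 : 0 ≤ q := by positivity
  have hq1 : q ≤ 1 := inv_le_one_of_one_le₀ hr
  have hq2 : ‖α‖ ^ 2 * q = 1 := mul_inv_cancel₀ (by positivity)
  have h10 : (α ^ 2).re * (1 - q ^ 2) ≤ ‖α‖ ^ 2 * (1 - q ^ 2) :=
    mul_le_mul_of_nonneg_right h8 (by nlinarith)
  have h11 : ‖α‖ ^ 2 * (1 - q ^ 2) = ‖α‖ ^ 2 - q := by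
    linear_combination (-q) * hq2
  rw [h7]
  nlinarith

/-- the semicircle potential at a real point -/
theorem sc_real (w : ℝ) : sc (w : ℂ) = w ^ 2 / 4 - 1 / 2 - Psi (phi w) := by
  obtain ⟨α, h1, h2, h3, h4⟩ := potentials (w : ℂ)
  have hα : α ≠ 0 := by
    rintro rfl
    rw [norm_zero] at h1
    norm_num at h1
  have hpc : pc (w : ℂ) = phi w := by
    rw [← integral_phi]
    unfold pc
    refine intervalIntegral.integral_congr fun t _ => ?_
    show Real.log _ = Real.log _
    rw [← Complex.ofReal_sub, Complex.norm_real, Real.norm_eq_abs]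
  rw [← hpc, h3, h4, Psi_log _ h1]
  have h5 : (α + α⁻¹) ^ 2 = α ^ 2 + 2 + α⁻¹ ^ 2 := by
    have h6 : α * α⁻¹ = 1 := mul_inv_cancel₀ hα
    linear_combination 2 * h6
  have h6 : (w : ℝ) ^ 2 = (α ^ 2).re + 2 + (α⁻¹ ^ 2).re := by
    have h7 := congrArg Complex.re h5
    rw [h2, ← Complex.ofReal_pow, Complex.ofReal_re, Complex.add_re, Complex.add_re] at h7
    rw [h7]
    rfl
  have h7 := re_inv_sq α hα
  set q := (‖α‖ ^ 2)⁻¹ with hq
  have hr : 1 ≤ ‖α‖ ^ 2 := one_le_pow₀ h1
  have hq2 : ‖α‖ ^ 2 * q = 1 := mul_inv_cancel₀ (by positivity)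
  have h8 : (α ^ 2).re * (1 - q ^ 2) = ‖α‖ ^ 2 * (1 - q ^ 2) := by
    rcases eq_or_lt_of_le h1 with h9 | h9
    · have : q = 1 := by rw [hq, ← h9]; norm_num
      rw [this]
      ring
    · have h10 : α.im = 0 := by
        have h11 := congrArg Complex.im h2
        rw [Complex.add_im, Complex.ofReal_im, Complex.inv_im, Complex.normSq_eq_norm_sq] at h11
        have h12 : α.im * (1 - q) = 0 := by
          rw [hq]
          linear_combination h11
        have h13 : q < 1 := inv_lt_one_of_one_lt₀ (one_lt_pow₀ h9 (by norm_num))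
        rcases mul_eq_zero.mp h12 with h14 | h14
        · exact h14
        · linarith
      have h11 : α = (α.re : ℂ) := by
        apply Complex.ext
        · simp
        · simp [h10]
      have h12 : (α ^ 2).re = ‖α‖ ^ 2 := by
        rw [h11, ← Complex.ofReal_pow, Complex.ofReal_re, Complex.norm_real, Real.norm_eq_abs,
          sq_abs]
      rw [h12]
  have h11 : ‖α‖ ^ 2 * (1 - q ^ 2) = ‖α‖ ^ 2 - q := by
    linear_combination (-q) * hq2
  rw [h6, h7]
  linear_combination (-1 / 4 : ℝ) * h8 - (1 / 4 : ℝ) * h11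

/-! ### polynomials -/

theorem poly_int (s : Multiset ℂ) :
    (∀ᵐ t : ℝ, ((s.map fun a => (X - C a : ℂ[X])).prod).eval ((tc t : ℝ) : ℂ) ≠ 0) ∧
    IntervalIntegrable (fun t => Real.log
      ‖((s.map fun a => (X - C a : ℂ[X])).prod).eval ((tc t : ℝ) : ℂ)‖) volume 0 1 ∧
    (∫ t in (0:ℝ)..1, Real.log
      ‖((s.map fun a => (X - C a : ℂ[X])).prod).eval ((tc t : ℝ) : ℂ)‖ = (s.map pc).sum) ∧
    ∫ t in (0:ℝ)..1, Real.log
      ‖((s.map fun a => (X - C a : ℂ[X])).prod).eval ((tc t : ℝ) : ℂ)‖ * (1 - c4 t) =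
        (s.map sc).sum := by
  induction s using Multiset.induction_on with
  | empty => simp
  | cons a s ih =>
    obtain ⟨h1, h2, h3, h4⟩ := ih
    have h0 : ∀ᵐ t : ℝ, ((tc t : ℝ) : ℂ) - a ≠ 0 := by
      obtain ⟨α, h5, rfl⟩ := exists_alpha a
      have hα : α ≠ 0 := by
        rintro rfl
        rw [norm_zero] at h5
        norm_num at h5
      filter_upwards [ae_ez_ne α, ae_ez_ne α⁻¹] with t h6 h7
      rw [← norm_ne_zero_iff, tc_sub t α hα]
      exact mul_ne_zero (norm_ne_zero_iff.mpr (sub_ne_zero.mpr h6))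
        (norm_ne_zero_iff.mpr (sub_ne_zero.mpr h7))
    have hlog : ∀ᵐ t : ℝ, Real.log
        ‖(((a ::ₘ s).map fun a => (X - C a : ℂ[X])).prod).eval ((tc t : ℝ) : ℂ)‖ =
        Real.log ‖((tc t : ℝ) : ℂ) - a‖ +
          Real.log ‖((s.map fun a => (X - C a : ℂ[X])).prod).eval ((tc t : ℝ) : ℂ)‖ := by
      filter_upwards [h0, h1] with t h5 h6
      rw [Multiset.map_cons, Multiset.prod_cons, eval_mul, norm_mul, eval_sub, eval_X, eval_C,
        Real.log_mul (norm_ne_zero_iff.mpr h5) (norm_ne_zero_iff.mpr h6)]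
    refine ⟨?_, ?_, ?_, ?_⟩
    · filter_upwards [h0, h1] with t h5 h6
      rw [Multiset.map_cons, Multiset.prod_cons, eval_mul, eval_sub, eval_X, eval_C]
      exact mul_ne_zero h5 h6
    · exact ((ii_tc a).add h2).congr_ae (ae_restrict_of_ae (hlog.mono fun t ht => ht.symm))
    · rw [intervalIntegral.integral_congr_ae (hlog.mono fun t ht _ => ht),
        intervalIntegral.integral_add (ii_tc a) h2, h3, Multiset.map_cons, Multiset.sum_cons]
      rfl
    · have h5 : ∀ᵐ t : ℝ, Real.log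
          ‖(((a ::ₘ s).map fun a => (X - C a : ℂ[X])).prod).eval ((tc t : ℝ) : ℂ)‖ * (1 - c4 t) =
          Real.log ‖((tc t : ℝ) : ℂ) - a‖ * (1 - c4 t) + Real.log
            ‖((s.map fun a => (X - C a : ℂ[X])).prod).eval ((tc t : ℝ) : ℂ)‖ * (1 - c4 t) := by
        filter_upwards [hlog] with t ht
        rw [ht]
        ring
      rw [intervalIntegral.integral_congr_ae (h5.mono fun t ht _ => ht),
        intervalIntegral.integral_add (ii_tcc a)
          (h2.mul_continuousOn (by have := continuous_c4; fun_prop)), h4, Multiset.map_cons,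
        Multiset.sum_cons]
      rfl

variable {n : ℕ}

theorem char_split (A : Matrix (Fin n) (Fin n) ℂ) :
    A.charpoly = (A.charpoly.roots.map fun a => (X - C a : ℂ[X])).prod :=
  (IsAlgClosed.splits A.charpoly).eq_prod_roots_of_monic (Matrix.charpoly_monic A)

theorem char_card (A : Matrix (Fin n) (Fin n) ℂ) : A.charpoly.roots.card = n := by
  rw [← (IsAlgClosed.splits A.charpoly).natDegree_eq_card_roots, Matrix.charpoly_natDegree_eq_dim,
    Fintype.card_fin]

theorem char_ae (A : Matrix (Fin n) (Fin n) ℂ) :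
    ∀ᵐ t : ℝ, A.charpoly.eval ((tc t : ℝ) : ℂ) ≠ 0 := by
  have h := (poly_int A.charpoly.roots).1
  rwa [← char_split] at h

theorem char_ii (A : Matrix (Fin n) (Fin n) ℂ) : IntervalIntegrable
    (fun t => Real.log ‖A.charpoly.eval ((tc t : ℝ) : ℂ)‖) volume 0 1 := by
  have h := (poly_int A.charpoly.roots).2.1
  rwa [← char_split] at h

theorem char_mp (A : Matrix (Fin n) (Fin n) ℂ) :
    mp A.charpoly = (A.charpoly.roots.map pc).sum := by
  have h := (poly_int A.charpoly.roots).2.2.1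
  rwa [← char_split] at h

theorem char_sc (A : Matrix (Fin n) (Fin n) ℂ) :
    ∫ t in (0:ℝ)..1, Real.log ‖A.charpoly.eval ((tc t : ℝ) : ℂ)‖ * (1 - c4 t) =
      (A.charpoly.roots.map sc).sum := by
  have h := (poly_int A.charpoly.roots).2.2.2
  rwa [← char_split] at h

theorem char_eval_prod (A : Matrix (Fin n) (Fin n) ℂ) (z : ℂ) :
    A.charpoly.eval z = (A.charpoly.roots.map fun a => z - a).prod := by
  conv_lhs => rw [char_split]
  rw [eval_multiset_prod, Multiset.map_map]
  congr 1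
  refine Multiset.map_congr rfl fun a _ => ?_
  simp

/-- the trace of the square -/
theorem trace_sq (A : Matrix (Fin n) (Fin n) ℂ) :
    (A * A).trace = (A.charpoly.roots.map fun a => a ^ 2).sum := by
  have h1 : (A * A).charpoly = ((A.charpoly.roots.map fun a => a ^ 2).map
      fun a => (X - C a : ℂ[X])).prod := by
    refine Polynomial.funext fun y => ?_
    obtain ⟨x, hx⟩ := IsAlgClosed.exists_pow_nat_eq y (n := 2) (by norm_num)
    have e1 : (A * A).charpoly.eval y = A.charpoly.eval x *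
        (x • (1 : Matrix (Fin n) (Fin n) ℂ) + A).det := by
      rw [Q262.FR.char_eval, Q262.FR.char_eval, ← Matrix.det_mul]
      congr 1
      rw [Matrix.sub_mul, Matrix.mul_add, Matrix.mul_add, ← hx]
      simp only [Matrix.smul_mul, Matrix.mul_smul, one_mul, mul_one, smul_smul, pow_two]
      abel
    have e2 : (x • (1 : Matrix (Fin n) (Fin n) ℂ) + A).det = (-1) ^ n * A.charpoly.eval (-x) := by
      rw [Q262.FR.char_eval]
      have h2 : (-x) • (1 : Matrix (Fin n) (Fin n) ℂ) - A =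
          -(x • (1 : Matrix (Fin n) (Fin n) ℂ) + A) := by
        rw [neg_smul]
        abel
      rw [h2, Matrix.det_neg, Fintype.card_fin, ← mul_assoc, ← mul_pow]
      simp
    have e3 : (-1 : ℂ) ^ n = (A.charpoly.roots.map fun _ => (-1 : ℂ)).prod := by
      rw [Multiset.map_const', Multiset.prod_replicate, char_card]
    rw [e1, e2, e3, char_eval_prod, char_eval_prod, ← Multiset.prod_map_mul,
      ← Multiset.prod_map_mul, eval_multiset_prod, Multiset.map_map, Multiset.map_map]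
    congr 1
    refine Multiset.map_congr rfl fun a _ => ?_
    simp only [Function.comp_apply, eval_sub, eval_X, eval_C, ← hx]
    ring
  rw [Matrix.trace_eq_sum_roots_charpoly, h1, roots_multiset_prod_X_sub_C]

/-- the real parts of the squares of the eigenvalues -/
theorem re_trace_sq (A : Matrix (Fin n) (Fin n) ℂ) :
    (A * A).trace.re = (A.charpoly.roots.map fun a => (a ^ 2).re).sum := by
  rw [trace_sq]
  have h : ∀ s : Multiset ℂ, s.sum.re = (s.map Complex.re).sum := by
    intro s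
    exact map_multiset_sum Complex.reAddGroupHom s
  rw [h, Multiset.map_map]
  rfl

/-- the sum of the excesses of the eigenvalues -/
def exc (p : ℂ[X]) : ℝ := (p.roots.map fun a => Psi (pc a)).sum

theorem sum_sub (s : Multiset ℂ) (f g : ℂ → ℝ) :
    (s.map fun a => f a - g a).sum = (s.map f).sum - (s.map g).sum := by
  induction s using Multiset.induction_on with
  | empty => simp
  | cons a s ih =>
    simp only [Multiset.map_cons, Multiset.sum_cons, ih]
    ring

theorem sc_sum_ge (A : Matrix (Fin n) (Fin n) ℂ) :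
    (A * A).trace.re / 4 - n / 2 - exc A.charpoly ≤ (A.charpoly.roots.map sc).sum := by
  have h1 : (A.charpoly.roots.map fun a => (a ^ 2).re / 4 - 1 / 2 - Psi (pc a)).sum ≤
      (A.charpoly.roots.map sc).sum :=
    Multiset.sum_map_le_sum_map _ _ fun a _ => sc_ge a
  rw [sum_sub, sum_sub] at h1
  have h2 : (A.charpoly.roots.map fun a => (a ^ 2).re / 4).sum = (A * A).trace.re / 4 := by
    rw [re_trace_sq]
    exact Multiset.sum_map_div _ _ _
  have h3 : (A.charpoly.roots.map fun _ => (1 / 2 : ℝ)).sum = n / 2 := by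
    rw [Multiset.map_const', Multiset.sum_replicate, char_card, nsmul_eq_mul]
    ring
  rw [h2, h3] at h1
  exact h1

theorem sc_sum_herm {W : Matrix (Fin n) (Fin n) ℂ} (hW : W.IsHermitian) :
    (W.charpoly.roots.map sc).sum = (W * W).trace.re / 4 - n / 2 -
      ∑ j, Psi (phi (hW.eigenvalues j)) := by
  have h1 : ∀ f : ℂ → ℝ, (W.charpoly.roots.map f).sum = ∑ j, f (hW.eigenvalues j : ℂ) := by
    intro f
    rw [hW.roots_charpoly_eq_eigenvalues, Multiset.map_map]
    rfl
  rw [re_trace_sq, h1, h1, Finset.sum_div]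
  have h2 : (n : ℝ) / 2 = ∑ _j : Fin n, (1 / 2 : ℝ) := by
    rw [Finset.sum_const, Finset.card_univ, Fintype.card_fin, nsmul_eq_mul]
    ring
  rw [h2, ← Finset.sum_sub_distrib, ← Finset.sum_sub_distrib]
  refine Finset.sum_congr rfl fun j _ => ?_
  rw [sc_real, ← Complex.ofReal_pow, Complex.ofReal_re]

/-- **The semicircle inequality.** -/
theorem semicircle (A W : Matrix (Fin n) (Fin n) ℂ) (hW : W.IsHermitian) (F : ℝ → ℂ) (c : ℝ)
    (hD : Dom (fun t => ‖F t‖) c)
    (hF : ∀ᵐ t : ℝ, A.charpoly.eval ((tc t : ℝ) : ℂ) = W.charpoly.eval ((tc t : ℝ) : ℂ) * F t) :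
    ∑ j, Psi (phi (hW.eigenvalues j)) ≤
      2 * c + ((W * W).trace.re - (A * A).trace.re) / 4 + exc A.charpoly := by
  obtain ⟨g, hg1, hg2, hg3⟩ := hD
  have hw : ∀ t, 0 ≤ 1 - c4 t ∧ 1 - c4 t ≤ 2 := by
    intro t
    have := abs_le.mp (abs_c4_le t)
    constructor <;> linarith [this.1, this.2]
  have hcw : Continuous fun t => 1 - c4 t := by
    have := continuous_c4
    fun_prop
  have h1 : ∫ t in (0:ℝ)..1, (Real.log ‖A.charpoly.eval ((tc t : ℝ) : ℂ)‖ * (1 - c4 t) -
      Real.log ‖W.charpoly.eval ((tc t : ℝ) : ℂ)‖ * (1 - c4 t)) ≤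
      ∫ t in (0:ℝ)..1, 2 * g t := by
    refine intervalIntegral.integral_mono_ae zero_le_one
      (((char_ii A).mul_continuousOn hcw.continuousOn).sub
        ((char_ii W).mul_continuousOn hcw.continuousOn)) (hg1.const_mul 2) ?_
    filter_upwards [hg2, hF, char_ae A, char_ae W] with t h2 h3 h4 h5
    have h6 : F t ≠ 0 := by
      intro h0
      rw [h0, mul_zero] at h3
      exact h4 h3
    have h7 : 0 < ‖F t‖ := norm_pos_iff.mpr h6
    have h8 : Real.log ‖F t‖ ≤ Real.log (1 + ‖F t‖) := Real.log_le_log h7 (by linarith)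
    have h9 : 0 ≤ Real.log (1 + ‖F t‖) := Real.log_nonneg (by linarith)
    have h10 : Real.log ‖A.charpoly.eval ((tc t : ℝ) : ℂ)‖ =
        Real.log ‖W.charpoly.eval ((tc t : ℝ) : ℂ)‖ + Real.log ‖F t‖ := by
      rw [h3, norm_mul, Real.log_mul (norm_ne_zero_iff.mpr h5) h7.ne']
    rw [h10]
    have h11 := (hw t).1
    have h12 := (hw t).2
    have h13 : Real.log ‖F t‖ * (1 - c4 t) ≤ Real.log (1 + ‖F t‖) * (1 - c4 t) :=
      mul_le_mul_of_nonneg_right h8 h11
    have h14 : Real.log (1 + ‖F t‖) * (1 - c4 t) ≤ Real.log (1 + ‖F t‖) * 2 :=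
      mul_le_mul_of_nonneg_left h12 h9
    have h15 := h2.2
    linarith
  rw [intervalIntegral.integral_sub ((char_ii A).mul_continuousOn hcw.continuousOn)
    ((char_ii W).mul_continuousOn hcw.continuousOn), intervalIntegral.integral_const_mul,
    char_sc, char_sc, sc_sum_herm hW] at h1
  have h2 := sc_sum_ge A
  linarith

theorem exc_le (A : Matrix (Fin n) (Fin n) ℂ) (B : ℝ) (hB : mp A.charpoly ≤ B) :
    exc A.charpoly ≤ Real.exp (2 * B) * B := by
  have hpc : ∀ a, 0 ≤ pc a := by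
    intro a
    obtain ⟨α, h1, h2, h3, h4⟩ := potentials a
    rw [h3]
    exact Real.log_nonneg h1
  rw [char_mp] at hB
  have h1 : ∀ a ∈ A.charpoly.roots, pc a ≤ B := by
    intro a ha
    refine le_trans ?_ hB
    exact Multiset.single_le_sum (fun x hx => by
      obtain ⟨b, _, rfl⟩ := Multiset.mem_map.mp hx
      exact hpc b) _ (Multiset.mem_map_of_mem pc ha)
  have h2 : exc A.charpoly ≤ (A.charpoly.roots.map fun a => Real.exp (2 * B) * pc a).sum :=
    Multiset.sum_map_le_sum_map _ _ fun a ha => Psi_le (hpc a) (h1 a ha)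
  rw [Multiset.sum_map_mul_left] at h2
  exact h2.trans (mul_le_mul_of_nonneg_left hB (Real.exp_pos _).le)

end

end Q262.NS
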