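import Mathlib
import Pool.Agent.Q262.NS.Ineq

/-!
# Finite-rank perturbations of Hermitian matrices in the trace coordinate
-/

set_option autoImplicit false

namespace Q262.NS

open MeasureTheory Polynomial Filter Topology
open Pool.Agent.H261R2.CM (ez D_norm_ez toC)
open Pool.Agent.W242.IM
open Pool.Agent.Y820.LB (Dom act act_mul act_one act_star kp subC dom_sub act_inner)
open Q262.FR (cst exists_factor dom_det det_sub_factor char_eval)

noncomputable section

variable {n : ℕ}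

theorem kp_jou : kp (X ^ 2 + 1 : ℂ[X]) 1 ≠ 0 := by
  intro h
  have h1 := congrArg (fun p : ℂ[X] => p.eval 0) h
  simp [kp] at h1

/-- the constant -/
def c1 (N : ℝ) : ℝ := subC (X ^ 2 + 1 : ℂ[X]) 1 N

theorem c1_nonneg (N : ℝ) (hN : 0 ≤ N) : 0 ≤ c1 N := by
  obtain ⟨g, hg1, hg2, hg3⟩ := dom_sub (ι := Fin 0) (X ^ 2 + 1 : ℂ[X]) 1 kp_jou N
    (fun _ => 0) (fun _ => 0) (by simpa using hN)
  refine le_trans ?_ hg3
  refine intervalIntegral.integral_nonneg_of_ae_restrict zero_le_one ?_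
  refine ae_restrict_of_ae ?_
  filter_upwards [hg2] with t ht
  refine le_trans ?_ ht.2
  exact Real.log_nonneg (by linarith [ht.1])

/-- a real diagonal form of a Hermitian matrix -/
theorem diag_form {W : Matrix (Fin n) (Fin n) ℂ} (hW : W.IsHermitian) :
    ∃ U : Matrix (Fin n) (Fin n) ℂ, U.conjTranspose * U = 1 ∧ U * U.conjTranspose = 1 ∧
      W = U * Matrix.diagonal (fun j => ((hW.eigenvalues j : ℝ) : ℂ)) * U.conjTranspose := by
  refine ⟨(hW.eigenvectorUnitary : Matrix (Fin n) (Fin n) ℂ), ?_, ?_, ?_⟩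
  · rw [← Matrix.star_eq_conjTranspose]
    exact Unitary.coe_star_mul_self _
  · rw [← Matrix.star_eq_conjTranspose]
    exact Unitary.coe_mul_star_self _
  · have := hW.spectral_theorem
    rw [Unitary.conjStarAlgAut_apply] at this
    exact this

theorem norm_act_unitary (U : Matrix (Fin n) (Fin n) ℂ) (hU : U.conjTranspose * U = 1)
    (x : EuclideanSpace ℂ (Fin n)) : ‖act U x‖ = ‖x‖ := by
  have h1 : inner ℂ (act U x) (act U x) = inner ℂ x x := by
    have h2 : inner ℂ (act U x) (act U x) = inner ℂ x (act U.conjTranspose (act U x)) := by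
      rw [act_star U.conjTranspose, Matrix.conjTranspose_conjTranspose]
    rw [h2, ← act_mul, hU, act_one]
  have h3 := congrArg RCLike.re h1
  rw [inner_self_eq_norm_sq (𝕜 := ℂ), inner_self_eq_norm_sq (𝕜 := ℂ)] at h3
  exact (sq_eq_sq₀ (norm_nonneg _) (norm_nonneg _)).mp h3

/-- matrix elements of the resolvent of a Hermitian matrix in the trace coordinate -/
theorem jou_res {W : Matrix (Fin n) (Fin n) ℂ} (hW : W.IsHermitian) (N : ℝ)
    (s t : EuclideanSpace ℂ (Fin n)) (hst : ‖s‖ * ‖t‖ ≤ N) :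
    Dom (fun τ => ‖inner ℂ t (act ((((tc τ : ℝ) : ℂ) • (1 : Matrix (Fin n) (Fin n) ℂ) - W)⁻¹) s)‖)
      (c1 N) := by
  obtain ⟨U, h1, h2, h3⟩ := diag_form hW
  set d := fun j => ((hW.eigenvalues j : ℝ) : ℂ) with hd
  set u := act U.conjTranspose s with hu
  set v := act U.conjTranspose t with hv
  have hun : ‖u‖ = ‖s‖ := norm_act_unitary U.conjTranspose
    (by rw [Matrix.conjTranspose_conjTranspose]; exact h2) s
  have hvn : ‖v‖ = ‖t‖ := norm_act_unitary U.conjTranspose
    (by rw [Matrix.conjTranspose_conjTranspose]; exact h2) t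
  have hsum : ∑ j, ‖star (v j) * u j‖ ≤ N := by
    refine le_trans ?_ hst
    rw [← hun, ← hvn]
    have h4 := Finset.sum_mul_sq_le_sq_mul_sq Finset.univ (fun i => ‖v i‖) (fun i => ‖u i‖)
    rw [← EuclideanSpace.norm_sq_eq, ← EuclideanSpace.norm_sq_eq, ← mul_pow, mul_comm ‖v‖] at h4
    have h5 : ∑ j, ‖star (v j) * u j‖ = ∑ i, ‖v i‖ * ‖u i‖ := by
      refine Finset.sum_congr rfl fun i _ => ?_
      rw [norm_mul, norm_star]
    rw [h5]
    have h6 : 0 ≤ ∑ i, ‖v i‖ * ‖u i‖ := Finset.sum_nonneg fun i _ => by positivity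
    exact (sq_le_sq₀ h6 (by positivity)).mp h4
  have hdom := dom_sub (X ^ 2 + 1 : ℂ[X]) 1 kp_jou N d (fun j => star (v j) * u j) hsum
  refine hdom.mono ?_
  have hne : ∀ᵐ τ : ℝ, ∀ j, ((tc τ : ℝ) : ℂ) - d j ≠ 0 := by
    rw [ae_all_iff]
    intro j
    filter_upwards [ae_tc_ne (hW.eigenvalues j)] with τ hτ h0
    apply hτ
    have h4 : ((tc τ : ℝ) : ℂ) = ((hW.eigenvalues j : ℝ) : ℂ) := sub_eq_zero.mp h0
    exact_mod_cast h4
  filter_upwards [hne] with τ hτ
  refine ⟨norm_nonneg _, le_of_eq ?_⟩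
  set x := ((tc τ : ℝ) : ℂ) with hx
  have e1 : (x • (1 : Matrix (Fin n) (Fin n) ℂ) - W)⁻¹ =
      U * Matrix.diagonal (fun j => (x - d j)⁻¹) * U.conjTranspose := by
    refine Matrix.inv_eq_left_inv ?_
    have e2 : x • (1 : Matrix (Fin n) (Fin n) ℂ) - W =
        U * Matrix.diagonal (fun j => x - d j) * U.conjTranspose := by
      have e3 : Matrix.diagonal (fun j => x - d j) =
          x • (1 : Matrix (Fin n) (Fin n) ℂ) - Matrix.diagonal d := by
        rw [Matrix.smul_one_eq_diagonal, Matrix.diagonal_sub]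
      rw [e3, Matrix.mul_sub, Matrix.sub_mul, ← h3, Matrix.mul_smul, Matrix.smul_mul, mul_one, h2]
    rw [e2]
    calc U * Matrix.diagonal (fun j => (x - d j)⁻¹) * U.conjTranspose *
          (U * Matrix.diagonal (fun j => x - d j) * U.conjTranspose)
        = U * Matrix.diagonal (fun j => (x - d j)⁻¹) * (U.conjTranspose * U) *
          Matrix.diagonal (fun j => x - d j) * U.conjTranspose := by
            simp only [Matrix.mul_assoc]
      _ = 1 := by
        rw [h1, mul_one, Matrix.mul_assoc U, Matrix.diagonal_mul_diagonal]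
        have e4 : (fun j => (x - d j)⁻¹ * (x - d j)) = fun _ : Fin n => (1 : ℂ) :=
          funext fun j => inv_mul_cancel₀ (hτ j)
        rw [e4, Matrix.diagonal_one, mul_one, h2]
  have e5 : inner ℂ t (act ((x • (1 : Matrix (Fin n) (Fin n) ℂ) - W)⁻¹) s) =
      ∑ j, star (v j) * (x - d j)⁻¹ * u j := by
    rw [e1, act_mul, act_mul, act_star U, act_inner]
    refine Finset.sum_congr rfl fun i _ => ?_
    rw [Finset.sum_eq_single i]
    · rw [Matrix.diagonal_apply_eq]
    · intro j _ hj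
      rw [Matrix.diagonal_apply_ne _ (Ne.symm hj)]
      simp
    · intro h
      exact absurd (Finset.mem_univ i) h
  have e6 : inner ℂ t (act ((x • (1 : Matrix (Fin n) (Fin n) ℂ) - W)⁻¹) s) =
      ez τ * ∑ j, star (v j) * u j / (eval (ez τ) (X ^ 2 + 1 : ℂ[X]) - d j * ez τ ^ 1) := by
    rw [e5, Finset.mul_sum]
    refine Finset.sum_congr rfl fun j _ => ?_
    have hz : ez τ ≠ 0 := by
      intro h0
      have h6 := D_norm_ez τ
      rw [h0, norm_zero] at h6
      norm_num at h6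
    have h7 : eval (ez τ) (X ^ 2 + 1 : ℂ[X]) - d j * ez τ ^ 1 = ez τ * (x - d j) := by
      have h8 := ez_add_inv τ
      simp only [eval_add, eval_pow, eval_X, eval_one]
      rw [← hx] at h8
      linear_combination h8
    rw [h7]
    have h9 := hτ j
    field_simp
  rw [e6, norm_mul, D_norm_ez, one_mul]

theorem jou_pair (r : ℕ) (N : ℝ) (hN : 0 ≤ N) (W A : Matrix (Fin n) (Fin n) ℂ)
    (hW : W.IsHermitian) (hK : ∀ x, ‖act (A - W) x‖ ≤ N * ‖x‖) (hr : (A - W).rank ≤ r) :
    ∃ F : ℝ → ℂ, Dom (fun t => ‖F t‖) (cst r (c1 N)) ∧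
      ∀ᵐ t : ℝ, A.charpoly.eval ((tc t : ℝ) : ℂ) = W.charpoly.eval ((tc t : ℝ) : ℂ) * F t := by
  obtain ⟨b, c, hb, hc, hfac⟩ := exists_factor (A - W) N hN hK
  have hc0' := c1_nonneg N hN
  refine ⟨fun t => (1 - Matrix.of fun i j => inner ℂ (c i)
    (act ((((tc t : ℝ) : ℂ) • (1 : Matrix (Fin n) (Fin n) ℂ) - W)⁻¹) (b j))).det, ?_, ?_⟩
  · refine (dom_det (fun t => Matrix.of fun i j => inner ℂ (c i)
      (act ((((tc t : ℝ) : ℂ) • (1 : Matrix (Fin n) (Fin n) ℂ) - W)⁻¹) (b j))) (c1 N)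
      fun i j => ?_).le ?_
    · simp only [Matrix.of_apply]
      refine jou_res hW N (b j) (c i) ?_
      rw [hb j, one_mul]
      exact hc i
    · have hm : ((A - W).rank : ℝ) ≤ r := by exact_mod_cast hr
      have hm0 : (0:ℝ) ≤ ((A - W).rank : ℝ) := Nat.cast_nonneg _
      have hf : (((A - W).rank.factorial : ℕ) : ℝ) ≤ (r.factorial : ℝ) := by
        exact_mod_cast Nat.factorial_le hr
      have hf0 : (0:ℝ) < (((A - W).rank.factorial : ℕ) : ℝ) := by
        exact_mod_cast Nat.factorial_pos _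
      have h1 : Real.log (2 * (((A - W).rank.factorial : ℕ) : ℝ)) ≤
          Real.log (2 * (r.factorial : ℝ)) :=
        Real.log_le_log (by positivity) (by linarith)
      have h2 : ((A - W).rank : ℝ) * c1 N ≤ r * c1 N := mul_le_mul_of_nonneg_right hm hc0'
      have h3 : ((A - W).rank : ℝ) * (((A - W).rank : ℝ) * c1 N) ≤ r * (r * c1 N) :=
        mul_le_mul hm h2 (by positivity) (by positivity)
      have h4 : ((A - W).rank : ℝ) * (((A - W).rank : ℝ) * (((A - W).rank : ℝ) * c1 N)) ≤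
          r * (r * (r * c1 N)) := mul_le_mul hm h3 (by positivity) (by positivity)
      unfold cst
      linarith
  · filter_upwards [char_ae W] with t ht
    rw [char_eval] at ht
    rw [char_eval, char_eval]
    have h1 : ((tc t : ℝ) : ℂ) • (1 : Matrix (Fin n) (Fin n) ℂ) - A =
        (((tc t : ℝ) : ℂ) • (1 : Matrix (Fin n) (Fin n) ℂ) - W) - (A - W) := by abel
    rw [h1]
    exact det_sub_factor _ _ ht b c hfac

/-- the height of the pair -/
theorem hp_le (A W : Matrix (Fin n) (Fin n) ℂ) (F : ℝ → ℂ) (c : ℝ)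
    (hD : Dom (fun t => ‖F t‖) c)
    (hF : ∀ᵐ t : ℝ, A.charpoly.eval ((tc t : ℝ) : ℂ) = W.charpoly.eval ((tc t : ℝ) : ℂ) * F t) :
    hp A.charpoly W.charpoly ≤ mp W.charpoly + c := by
  obtain ⟨g, hg1, hg2, hg3⟩ := hD
  have h1 : hp A.charpoly W.charpoly ≤
      ∫ t in (0:ℝ)..1, (Real.log ‖W.charpoly.eval ((tc t : ℝ) : ℂ)‖ + g t) := by
    unfold hp
    refine intervalIntegral.integral_mono_ae zero_le_one
      (integrable_logmax _ _ (char_ii A) (char_ae A)) ((char_ii W).add hg1) ?_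
    filter_upwards [hg2, hF, char_ae W] with t h2 h3 h4
    have h5 : 0 < ‖W.charpoly.eval ((tc t : ℝ) : ℂ)‖ := norm_pos_iff.mpr h4
    have h6 : max ‖A.charpoly.eval ((tc t : ℝ) : ℂ)‖ ‖W.charpoly.eval ((tc t : ℝ) : ℂ)‖ ≤
        ‖W.charpoly.eval ((tc t : ℝ) : ℂ)‖ * (1 + ‖F t‖) := by
      rw [h3, norm_mul]
      refine max_le ?_ ?_
      · exact mul_le_mul_of_nonneg_left (by linarith [norm_nonneg (F t)]) h5.le
      · exact le_mul_of_one_le_right h5.le (by linarith [norm_nonneg (F t)])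
    have h7 := Real.log_le_log (lt_of_lt_of_le h5 (le_max_right _ _)) h6
    rw [Real.log_mul h5.ne' (by linarith [norm_nonneg (F t)])] at h7
    linarith [h2.2]
  rw [intervalIntegral.integral_add (char_ii W) hg1] at h1
  unfold mp
  linarith

end

end Q262.NS
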