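import Mathlib
import Pool.Agent.Q262.NS.Ineq
import Pool.Agent.W242.IM.Deg

/-!
# Deleting boundedly many rows of a Hermitian matrix of bounded excess
-/

set_option autoImplicit false
set_option linter.unusedSectionVars false

namespace Q262.NS

open MeasureTheory Polynomial Filter Topology Matrix
open Pool.Agent.H261R2.CM (ez D_norm_ez toC)
open Pool.Agent.W242.IM

noncomputable section

/-- the excess of a real number -/
def ps (l : ℝ) : ℝ := Psi (phi l)

theorem ps_nonneg (l : ℝ) : 0 ≤ ps l := Psi_nonneg (phi_nonneg l)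

theorem ps_mono {a b : ℝ} (h : |a| ≤ |b|) : ps a ≤ ps b := Psi_mono (phi_nonneg a) (phi_mono h)

theorem ps_zero : ps 0 = 0 := by
  unfold ps
  rw [phi_zero, Psi_zero]

theorem ps_neg (l : ℝ) : ps (-l) = ps l := by
  unfold ps
  rw [phi_neg]

variable {ι κ : Type*} [Fintype ι] [Fintype κ]

theorem sum_ps_le {QA : (ι → ℂ) → ℝ} {lA : ι → ℝ} (hA : SD QA lA) {QB : (κ → ℂ) → ℝ}
    {lB : κ → ℝ} (hB : SD QB lB) (P : (κ → ℂ) →ₗ[ℂ] (ι → ℂ)) {F : Type*} [AddCommGroup F]
    [Module ℂ F] [FiniteDimensional ℂ F] (R : (κ → ℂ) →ₗ[ℂ] F)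
    (hP : ∀ x, R x = 0 → nsq (P x) = nsq x ∧ QA (P x) = QB x) (ρ : ℝ) (hρ : ∀ j, |lB j| ≤ ρ) :
    ∑ j, ps (lB j) ≤ ∑ i, ps (lA i) + 2 * (Module.finrank ℂ F) * ps ρ := by
  classical
  by_cases hemp : Nonempty κ
  swap
  · rw [not_nonempty_iff] at hemp
    rw [Fintype.sum_empty]
    have h1 : 0 ≤ ∑ i, ps (lA i) := Finset.sum_nonneg fun _ _ => ps_nonneg _
    have h2 : 0 ≤ 2 * (Module.finrank ℂ F : ℝ) := mul_nonneg (by norm_num) (Nat.cast_nonneg _)
    exact add_nonneg h1 (mul_nonneg h2 (ps_nonneg ρ))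
  obtain ⟨j0⟩ := hemp
  have hρ0 : 0 ≤ ρ := (abs_nonneg _).trans (hρ j0)
  set f : ℝ → ℝ := fun t => ps (max t 0) with hf
  have hfm : Monotone f := by
    intro a b hab
    refine ps_mono ?_
    rw [abs_of_nonneg (le_max_right _ _), abs_of_nonneg (le_max_right _ _)]
    exact max_le_max hab le_rfl
  have hf0 : ∀ t, 0 ≤ f t := fun t => ps_nonneg _
  have hdec : ∀ t, ps t = f t + f (-t) := by
    intro t
    rw [hf]
    simp only
    rcases le_total 0 t with h | h
    · rw [max_eq_left h, max_eq_right (by linarith : -t ≤ 0), ps_zero, add_zero]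
    · rw [max_eq_right h, max_eq_left (by linarith : 0 ≤ -t), ps_zero, zero_add, ps_neg]
  have h1 := hall_sum lA lB (Module.finrank ℂ F) f hfm hf0 ρ (fun b => (le_abs_self _).trans (hρ b))
    (fun μ => count_le hA hB P R hP μ)
  have h2 := hall_sum (fun i => -lA i) (fun j => -lB j) (Module.finrank ℂ F) f hfm hf0 ρ
    (fun b => (neg_le_abs _).trans (hρ b))
    (fun μ => count_le hA.neg hB.neg P R (fun x hx => ⟨(hP x hx).1, by rw [(hP x hx).2]⟩) μ)
  have h3 : f ρ = ps ρ := by
    rw [hf]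
    simp only
    rw [max_eq_left hρ0]
  rw [h3] at h1 h2
  simp_rw [hdec, Finset.sum_add_distrib]
  rw [hdec ρ] at *
  rw [← hdec ρ] at *
  linarith

variable [DecidableEq ι] [DecidableEq κ]

/-- the excess of a polynomial -/
def ep (p : ℂ[X]) : ℝ := (p.roots.map fun z => ps z.re).sum

theorem ep_charpoly {A : Matrix ι ι ℂ} (hA : A.IsHermitian) :
    ep A.charpoly = ∑ j, ps (hA.eigenvalues j) := by
  unfold ep
  rw [hA.roots_charpoly_eq_eigenvalues, Multiset.map_map]
  rfl

theorem ep_mul {p q : ℂ[X]} (hp : p ≠ 0) (hq : q ≠ 0) : ep (p * q) = ep p + ep q := by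
  unfold ep
  rw [roots_mul (mul_ne_zero hp hq), Multiset.map_add, Multiset.sum_add]

theorem ep_submatrix_le (f : κ → ι) (hf : Function.Injective f) {A : Matrix ι ι ℂ}
    (hA : A.IsHermitian) : ep (A.submatrix f f).charpoly ≤ ep A.charpoly := by
  have hB : (A.submatrix f f).IsHermitian := hA.submatrix f
  rw [ep_charpoly hA, ep_charpoly hB]
  have h := sum_ps_le (sd_of_hermitian hA) (sd_of_hermitian hB)
    (Function.ExtendByZero.linearMap ℂ f) (F := Fin 0 → ℂ) 0
    (fun x _ => ⟨nsq_extend f hf x, qf_extend f hf x A⟩)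
    (∑ j, |hB.eigenvalues j|) (fun j => Finset.single_le_sum (f := fun j => |hB.eigenvalues j|)
      (fun _ _ => abs_nonneg _) (Finset.mem_univ j))
  simpa using h

theorem ep_cp_le {A : Matrix ι ι ℂ} (hA : A.IsHermitian) (U : Finset ι) :
    ep (cp A U) ≤ ep A.charpoly := ep_submatrix_le _ Subtype.val_injective hA

theorem ep_empty (A : Matrix ι ι ℂ) (hA : A.IsHermitian) : ep (cp A ∅) = 0 := by
  unfold cp
  rw [ep_charpoly (sm_hermitian hA ∅)]
  exact Fintype.sum_empty _

theorem cp_ne (A : Matrix ι ι ℂ) (U : Finset ι) : cp A U ≠ 0 := (charpoly_monic _).ne_zero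

theorem ep_sum {A : Matrix ι ι ℂ} (hA : A.IsHermitian) (F : Finset (Finset ι)) (hF : Sep A F) :
    ep (cp A (F.biUnion id)) = ∑ U ∈ F, ep (cp A U) := by
  induction F using Finset.induction_on with
  | empty =>
    rw [Finset.biUnion_empty, Finset.sum_empty]
    exact ep_empty A hA
  | insert V F hV ih =>
    have hF' : Sep A F := fun U hU W hW hne =>
      hF U (Finset.mem_insert_of_mem hU) W (Finset.mem_insert_of_mem hW) hne
    rw [Finset.biUnion_insert, Finset.sum_insert hV, ← ih hF', id, cp_union A V (F.biUnion id),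
      ep_mul (cp_ne A V) (cp_ne A _)]
    · rw [Finset.disjoint_biUnion_right]
      intro U hU
      exact (hF V (Finset.mem_insert_self _ _) U (Finset.mem_insert_of_mem hU)
        (by rintro rfl; exact hV hU)).1
    · intro i hi j hj
      obtain ⟨U, hU, hiU⟩ := Finset.mem_biUnion.mp hi
      exact (hF U (Finset.mem_insert_of_mem hU) V (Finset.mem_insert_self _ _)
        (by rintro rfl; exact hV hU)).2 i hiU j hj

theorem ep_ge {A : Matrix ι ι ℂ} (hA : A.IsHermitian) (U : Finset ι) (N : ℕ) (δ : ℝ)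
    (hδ : 0 < δ) (hN : U.card ≤ N) (h : δ ≤ mp (cp A U)) : Psi (δ / N) ≤ ep (cp A U) := by
  unfold cp at h ⊢
  rw [ep_charpoly (sm_hermitian hA U)]
  rw [(mp_charpoly (sm_hermitian hA U)).2] at h
  by_contra hcon
  push Not at hcon
  have h1 : ∀ j, phi ((sm_hermitian hA U).eigenvalues j) < δ / N := by
    intro j
    by_contra h2
    push Not at h2
    have h3 : Psi (δ / N) ≤ ps ((sm_hermitian hA U).eigenvalues j) :=
      Psi_mono (by positivity) h2
    have h4 : ps ((sm_hermitian hA U).eigenvalues j) ≤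
        ∑ j, ps ((sm_hermitian hA U).eigenvalues j) :=
      Finset.single_le_sum (f := fun j => ps ((sm_hermitian hA U).eigenvalues j))
        (fun _ _ => ps_nonneg _) (Finset.mem_univ j)
    linarith
  rcases isEmpty_or_nonempty U with he | he
  · rw [Fintype.sum_empty] at h
    linarith
  · have h2 : ∑ j, phi ((sm_hermitian hA U).eigenvalues j) < ∑ _j : U, δ / N :=
      Finset.sum_lt_sum_of_nonempty Finset.univ_nonempty fun j _ => h1 j
    rw [Finset.sum_const, Finset.card_univ, Fintype.card_coe, nsmul_eq_mul] at h2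
    have h3 : (U.card : ℝ) ≤ N := by exact_mod_cast hN
    have h4 : (0:ℝ) < U.card := by
      have h5 : 0 < Fintype.card U := Fintype.card_pos
      rw [Fintype.card_coe] at h5
      exact_mod_cast h5
    have h5 : (0:ℝ) < N := by linarith
    have h6 : (U.card : ℝ) * (δ / N) ≤ δ := by
      rw [mul_div_assoc', div_le_iff₀ h5]
      nlinarith
    linarith

/-- The number of nonzero entries in a row. -/
theorem degree_le {A : Matrix ι ι ℂ} (hA : A.IsHermitian) (hI : ∀ U, Itg A U) (ρ : ℝ)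
    (hρ : ∀ j, |hA.eigenvalues j| ≤ ρ) (i : ι) :
    ((Finset.univ.filter fun j => A i j ≠ 0).card : ℝ) ≤ 1 + ρ ^ 2 := by
  classical
  have h1 := nsq_mulVec_le hA _ hρ (Pi.single i 1)
  have h2 : nsq (Pi.single i (1 : ℂ)) = 1 := by
    unfold nsq
    rw [Finset.sum_eq_single i]
    · simp
    · intro b _ hb
      simp [hb]
    · simp
  rw [h2, mul_one] at h1
  have h3 : nsq (A *ᵥ Pi.single i 1) = ∑ j, ‖A i j‖ ^ 2 := by
    unfold nsq
    refine Finset.sum_congr rfl fun j _ => ?_
    rw [mulVec_single_one, Matrix.col_apply, ← hA.apply i j, norm_star]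
  rw [h3] at h1
  have h4 : ((Finset.univ.filter fun j => A i j ≠ 0).card : ℝ) ≤ 1 + ∑ j, ‖A i j‖ ^ 2 := by
    have h5 : ((Finset.univ.filter fun j => A i j ≠ 0).card : ℝ) =
        ∑ j, if A i j ≠ 0 then (1:ℝ) else 0 := by
      rw [Finset.sum_boole]
    rw [h5, ← Finset.add_sum_erase Finset.univ (fun j => if A i j ≠ 0 then (1:ℝ) else 0)
      (Finset.mem_univ i), ← Finset.add_sum_erase Finset.univ (fun j => ‖A i j‖ ^ 2)
      (Finset.mem_univ i)]
    have h6 : (if A i i ≠ 0 then (1:ℝ) else 0) ≤ 1 := by split_ifs <;> norm_num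
    have h7 : 0 ≤ ‖A i i‖ ^ 2 := by positivity
    have h8 : ∑ j ∈ Finset.univ.erase i, (if A i j ≠ 0 then (1:ℝ) else 0) ≤
        ∑ j ∈ Finset.univ.erase i, ‖A i j‖ ^ 2 := by
      refine Finset.sum_le_sum fun j hj => ?_
      split_ifs with h9
      · exact offdiag_int hA hI i j (Ne.symm (Finset.ne_of_mem_erase hj)) h9
      · positivity
    linarith
  linarith

theorem deletion_ps (b ρ : ℝ) : ∃ s : ℕ, ∀ (n : ℕ) (A : Matrix (Fin n) (Fin n) ℂ)
    (hA : A.IsHermitian), (∀ U, Itg A U) → ep A.charpoly ≤ b →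
      (∀ j, |hA.eigenvalues j| ≤ ρ) →
      ∃ S : Finset (Fin n), S.card ≤ s ∧ mp (cp A (Finset.univ \ S)) = 0 := by
  classical
  obtain ⟨δ, N0, hδ, h0⟩ := size_bound
  set N := max N0 1 with hN
  have hN1 : 1 ≤ N := le_max_right _ _
  have h : ∀ (n : ℕ) (A : Matrix (Fin n) (Fin n) ℂ), A.IsHermitian → (∀ U, Itg A U) →
      ∀ U, mp (cp A U) ≠ 0 → ∃ V ⊆ U, V.card ≤ N ∧ δ ≤ mp (cp A V) := by
    intro n A hA hI U hU
    obtain ⟨V, h1, h2, h3⟩ := h0 n A hA hI U hU
    exact ⟨V, h1, h2.trans (le_max_left _ _), h3⟩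
  set v := Psi (δ / N) with hv
  have hNpos : (0:ℝ) < N := by exact_mod_cast hN1
  have hv0 : 0 < v := Psi_pos (by positivity)
  refine ⟨⌊b / v⌋₊ * N * (1 + ⌊1 + ρ ^ 2⌋₊), fun n A hA hI hb hρ => ?_⟩
  set good : Finset (Finset (Finset (Fin n))) := Finset.univ.filter fun F =>
    Sep A F ∧ ∀ U ∈ F, U.card ≤ N ∧ δ ≤ mp (cp A U) with hgood
  have hne : good.Nonempty := by
    refine ⟨∅, ?_⟩
    rw [hgood, Finset.mem_filter]
    refine ⟨Finset.mem_univ _, ?_, ?_⟩
    · intro U hU
      exact absurd hU (Finset.notMem_empty U)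
    · intro U hU
      exact absurd hU (Finset.notMem_empty U)
  obtain ⟨F, hF, hmax⟩ := Finset.exists_max_image good Finset.card hne
  rw [hgood, Finset.mem_filter] at hF
  obtain ⟨-, hsep, hFU⟩ := hF
  have hcard : (F.card : ℝ) * v ≤ b := by
    have h1 := ep_sum hA F hsep
    have h2 : (F.card : ℝ) * v ≤ ∑ U ∈ F, ep (cp A U) := by
      rw [← nsmul_eq_mul]
      exact Finset.card_nsmul_le_sum F _ v
        (fun U hU => ep_ge hA U N δ hδ (hFU U hU).1 (hFU U hU).2)
    have h3 := ep_cp_le hA (F.biUnion id)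
    linarith
  have hFcard : F.card ≤ ⌊b / v⌋₊ := by
    apply Nat.le_floor
    rw [le_div_iff₀ hv0]
    exact hcard
  set W := F.biUnion id with hW
  have hWcard : W.card ≤ ⌊b / v⌋₊ * N := by
    calc W.card ≤ ∑ U ∈ F, (id U).card := Finset.card_biUnion_le
      _ ≤ ∑ U ∈ F, N := Finset.sum_le_sum fun U hU => (hFU U hU).1
      _ = F.card * N := by rw [Finset.sum_const, smul_eq_mul]
      _ ≤ ⌊b / v⌋₊ * N := Nat.mul_le_mul_right N hFcard
  set D := ⌊1 + ρ ^ 2⌋₊ with hD
  set S := W ∪ W.biUnion (fun i => Finset.univ.filter fun j => A i j ≠ 0) with hS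
  have hdeg : ∀ i, (Finset.univ.filter fun j => A i j ≠ 0).card ≤ D := by
    intro i
    apply Nat.le_floor
    exact degree_le hA hI ρ hρ i
  have hScard : S.card ≤ ⌊b / v⌋₊ * N * (1 + D) := by
    calc S.card ≤ W.card + (W.biUnion (fun i => Finset.univ.filter fun j => A i j ≠ 0)).card :=
          Finset.card_union_le _ _
      _ ≤ W.card + W.card * D := by
          refine Nat.add_le_add_left ?_ _
          exact Finset.card_biUnion_le_card_mul _ _ _ fun i _ => hdeg i
      _ = W.card * (1 + D) := by ring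
      _ ≤ ⌊b / v⌋₊ * N * (1 + D) := Nat.mul_le_mul_right _ hWcard
  refine ⟨S, hScard, ?_⟩
  by_contra hcon
  obtain ⟨V, hV, hVN, hVδ⟩ := h n A hA hI _ hcon
  have hVS : ∀ v ∈ V, v ∉ S := fun v hv => (Finset.mem_sdiff.mp (hV hv)).2
  have hVF : V ∉ F := by
    intro hVF
    have hVe : V = ∅ := by
      rw [Finset.eq_empty_iff_forall_notMem]
      intro v hv
      exact hVS v hv (Finset.mem_union_left _ (Finset.mem_biUnion.mpr ⟨V, hVF, hv⟩))
    rw [hVe, mp_empty A hA] at hVδ
    linarith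
  have hnew : insert V F ∈ good := by
    rw [hgood, Finset.mem_filter]
    refine ⟨Finset.mem_univ _, ?_, ?_⟩
    · have key : ∀ U ∈ F, Disjoint U V ∧ ∀ i ∈ U, ∀ j ∈ V, A i j = 0 := by
        intro U hU
        constructor
        · rw [Finset.disjoint_left]
          intro i hiU hiV
          exact hVS i hiV (Finset.mem_union_left _ (Finset.mem_biUnion.mpr ⟨U, hU, hiU⟩))
        · intro i hi j hj
          by_contra hne
          refine hVS j hj (Finset.mem_union_right _ (Finset.mem_biUnion.mpr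
            ⟨i, Finset.mem_biUnion.mpr ⟨U, hU, hi⟩, ?_⟩))
          exact Finset.mem_filter.mpr ⟨Finset.mem_univ _, hne⟩
      intro U hU U' hU' hne
      rcases Finset.mem_insert.mp hU with hU1 | hU1 <;>
        rcases Finset.mem_insert.mp hU' with hU2 | hU2
      · exact absurd (hU1.trans hU2.symm) hne
      · subst hU1
        refine ⟨(key U' hU2).1.symm, fun i hi j hj => ?_⟩
        have h1 := (key U' hU2).2 j hj i hi
        rw [← hA.apply i j, h1, star_zero]
      · subst hU2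
        exact key U hU1
      · exact hsep U hU1 U' hU2 hne
    · intro U hU
      rcases Finset.mem_insert.mp hU with rfl | hU
      · exact ⟨hVN, hVδ⟩
      · exact hFU U hU
  have := hmax _ hnew
  rw [Finset.card_insert_of_notMem hVF] at this
  omega

end

end Q262.NS
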