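import Mathlib
import Pool.Agent.Q262.NS.Pk
import Pool.Agent.W242.IM.Block2

/-!
# Deleting boundedly many blocks of a Hermitian matrix of bounded excess
-/

set_option autoImplicit false
set_option linter.unusedSectionVars false

namespace Q262.NS

open MeasureTheory Polynomial Filter Topology Matrix
open Pool.Agent.H261R2.CM (ez D_norm_ez toC)
open Pool.Agent.W242.IM

noncomputable section

variable {ι B : Type*} [Fintype ι] [DecidableEq ι] [Fintype B] [DecidableEq B]

theorem row_ps {A : Matrix ι ι ℂ} (hA : A.IsHermitian) (ρ : ℝ)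
    (hρ : ∀ j, |hA.eigenvalues j| ≤ ρ) (i : ι) : ∑ j, ‖A i j‖ ^ 2 ≤ ρ ^ 2 := by
  have h1 := nsq_mulVec_le hA _ hρ (Pi.single i 1)
  have h2 : nsq (Pi.single i (1 : ℂ)) = 1 := by
    unfold nsq
    rw [Finset.sum_eq_single i]
    · simp
    · intro b _ hb
      simp [hb]
    · simp
  rw [h2, mul_one] at h1
  have h3 : nsq (A *ᵥ Pi.single i 1) = ∑ j, ‖A i j‖ ^ 2 := by
    unfold nsq
    refine Finset.sum_congr rfl fun j _ => ?_
    rw [mulVec_single_one, Matrix.col_apply, ← hA.apply i j, norm_star]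
  rw [h3] at h1
  exact h1

theorem nbr_ps {A : Matrix ι ι ℂ} (hA : A.IsHermitian) (β : ι → B)
    (hI : ∀ U, Itg A (pre β U)) (d : ℕ) (hd : ∀ b, (pre β {b}).card ≤ d) (ρ : ℝ)
    (hρ : ∀ j, |hA.eigenvalues j| ≤ ρ) (b : B) :
    ((nbr A β b).card : ℝ) ≤ 1 + 2 * (d * ρ ^ 2) := by
  classical
  have h1 : ∑ c, crs A β b c = ∑ i ∈ pre β {b}, ∑ j, ‖A i j‖ ^ 2 := by
    unfold crs
    rw [Finset.sum_comm]
    refine Finset.sum_congr rfl fun i _ => ?_
    have h2 : ∀ c, ∑ j ∈ pre β {c}, ‖A i j‖ ^ 2 = ∑ j, if β j = c then ‖A i j‖ ^ 2 else 0 := by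
      intro c
      rw [← Finset.sum_filter]
      refine Finset.sum_congr ?_ fun _ _ => rfl
      ext j
      simp [mem_pre]
    simp_rw [h2]
    rw [Finset.sum_comm]
    refine Finset.sum_congr rfl fun j _ => ?_
    simp
  have h2 : ∑ c, crs A β b c ≤ d * ρ ^ 2 := by
    rw [h1]
    refine (Finset.sum_le_sum fun i _ => row_ps hA ρ hρ i).trans ?_
    rw [Finset.sum_const, nsmul_eq_mul]
    refine mul_le_mul_of_nonneg_right ?_ (by positivity)
    exact_mod_cast hd b
  have h3 : ((nbr A β b).card : ℝ) = ∑ c, if crs A β b c ≠ 0 then (1:ℝ) else 0 := by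
    unfold nbr
    rw [Finset.sum_boole]
  rw [h3, ← Finset.add_sum_erase Finset.univ (fun c => if crs A β b c ≠ 0 then (1:ℝ) else 0)
    (Finset.mem_univ b)]
  rw [← Finset.add_sum_erase Finset.univ (fun c => crs A β b c) (Finset.mem_univ b)] at h2
  have h6 : (if crs A β b b ≠ 0 then (1:ℝ) else 0) ≤ 1 := by split_ifs <;> norm_num
  have h7 := crs_nonneg A β b b
  have h8 : ∑ c ∈ Finset.univ.erase b, (if crs A β b c ≠ 0 then (1:ℝ) else 0) ≤
      2 * ∑ c ∈ Finset.univ.erase b, crs A β b c := by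
    rw [Finset.mul_sum]
    refine Finset.sum_le_sum fun c hc => ?_
    split_ifs with h9
    · obtain ⟨i, hi, h10⟩ := Finset.exists_ne_zero_of_sum_ne_zero h9
      obtain ⟨j, hj, h11⟩ := Finset.exists_ne_zero_of_sum_ne_zero h10
      rw [mem_pre, Finset.mem_singleton] at hi hj
      have h12 := crs_ge hA β hI b c (Ne.symm (Finset.ne_of_mem_erase hc)) i j hi hj (by
        intro h0
        apply h11
        rw [h0]
        simp)
      linarith
    · have := crs_nonneg A β b c
      linarith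
  linarith

theorem ep_sum_block {A : Matrix ι ι ℂ} (hA : A.IsHermitian) (β : ι → B)
    (F : Finset (Finset B)) (hF : SepB A β F) :
    ep (cp A (pre β (F.biUnion id))) = ∑ U ∈ F, ep (cp A (pre β U)) := by
  induction F using Finset.induction_on with
  | empty =>
    rw [Finset.biUnion_empty, Finset.sum_empty, pre_empty]
    exact ep_empty A hA
  | insert V F hV ih =>
    have hF' : SepB A β F := fun U hU W hW hne =>
      hF U (Finset.mem_insert_of_mem hU) W (Finset.mem_insert_of_mem hW) hne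
    rw [Finset.biUnion_insert, Finset.sum_insert hV, ← ih hF', id, pre_union,
      cp_union A (pre β V) (pre β (F.biUnion id)), ep_mul (cp_ne A _) (cp_ne A _)]
    · rw [Finset.disjoint_left]
      intro i hi hj
      rw [mem_pre] at hi hj
      obtain ⟨U, hU, hiU⟩ := Finset.mem_biUnion.mp hj
      exact Finset.disjoint_left.mp (hF V (Finset.mem_insert_self _ _) U
        (Finset.mem_insert_of_mem hU) (by rintro rfl; exact hV hU)).1 hi hiU
    · intro i hi j hj
      rw [mem_pre] at hi hj
      obtain ⟨U, hU, hiU⟩ := Finset.mem_biUnion.mp hi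
      exact (hF U (Finset.mem_insert_of_mem hU) V (Finset.mem_insert_self _ _)
        (by rintro rfl; exact hV hU)).2 i hiU j hj

/-- Boundedly many blocks of rows can be deleted such that the rest is cyclotomic. -/
theorem deletion_ps_block (d : ℕ) (b ρ : ℝ) : ∃ s : ℕ, ∀ (ι B : Type) [Fintype ι]
    [DecidableEq ι] [Fintype B] [DecidableEq B] (A : Matrix ι ι ℂ) (β : ι → B)
    (hA : A.IsHermitian), (∀ b, (pre β {b}).card ≤ d) → (∀ U, Itg A (pre β U)) →
      ep A.charpoly ≤ b → (∀ j, |hA.eigenvalues j| ≤ ρ) →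
      ∃ S : Finset B, S.card ≤ s ∧ mp (cp A (pre β (Finset.univ \ S))) = 0 := by
  classical
  obtain ⟨δ, N0, hδ, h0⟩ := size_bound_block d
  set N := N0 * d + 1 with hN
  have hNpos : (0:ℝ) < N := by
    have : 0 < N := Nat.succ_pos _
    exact_mod_cast this
  set v := Psi (δ / N) with hv
  have hv0 : 0 < v := Psi_pos (by positivity)
  refine ⟨⌊b / v⌋₊ * N0 * (1 + ⌊1 + 2 * (d * ρ ^ 2)⌋₊), fun ι B _ _ _ _ A β hA hd hI hb hρ => ?_⟩
  set good : Finset (Finset (Finset B)) := Finset.univ.filter fun F =>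
    SepB A β F ∧ ∀ U ∈ F, U.card ≤ N0 ∧ δ ≤ mp (cp A (pre β U)) with hgood
  have hne : good.Nonempty := by
    refine ⟨∅, ?_⟩
    rw [hgood, Finset.mem_filter]
    refine ⟨Finset.mem_univ _, ?_, ?_⟩
    · intro U hU
      exact absurd hU (Finset.notMem_empty U)
    · intro U hU
      exact absurd hU (Finset.notMem_empty U)
  obtain ⟨F, hF, hmax⟩ := Finset.exists_max_image good Finset.card hne
  rw [hgood, Finset.mem_filter] at hF
  obtain ⟨-, hsep, hFU⟩ := hF
  have hcard : (F.card : ℝ) * v ≤ b := by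
    have h1 := ep_sum_block hA β F hsep
    have h2 : (F.card : ℝ) * v ≤ ∑ U ∈ F, ep (cp A (pre β U)) := by
      rw [← nsmul_eq_mul]
      refine Finset.card_nsmul_le_sum F _ v (fun U hU => ?_)
      refine ep_ge hA (pre β U) N δ hδ ?_ (hFU U hU).2
      have h4 := pre_card_le hd U
      have h5 := Nat.mul_le_mul_right d (hFU U hU).1
      omega
    have h3 := ep_cp_le hA (pre β (F.biUnion id))
    linarith
  have hFcard : F.card ≤ ⌊b / v⌋₊ := by
    apply Nat.le_floor
    rw [le_div_iff₀ hv0]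
    exact hcard
  set W := F.biUnion id with hW
  have hWcard : W.card ≤ ⌊b / v⌋₊ * N0 := by
    calc W.card ≤ ∑ U ∈ F, (id U).card := Finset.card_biUnion_le
      _ ≤ ∑ U ∈ F, N0 := Finset.sum_le_sum fun U hU => (hFU U hU).1
      _ = F.card * N0 := by rw [Finset.sum_const, smul_eq_mul]
      _ ≤ ⌊b / v⌋₊ * N0 := Nat.mul_le_mul_right N0 hFcard
  set D := ⌊1 + 2 * (d * ρ ^ 2)⌋₊ with hD
  set S := W ∪ W.biUnion (nbr A β) with hS
  have hdeg : ∀ b, (nbr A β b).card ≤ D := by
    intro b
    apply Nat.le_floor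
    exact nbr_ps hA β hI d hd ρ hρ b
  have hScard : S.card ≤ ⌊b / v⌋₊ * N0 * (1 + D) := by
    calc S.card ≤ W.card + (W.biUnion (nbr A β)).card :=
          Finset.card_union_le _ _
      _ ≤ W.card + W.card * D := by
          refine Nat.add_le_add_left ?_ _
          exact Finset.card_biUnion_le_card_mul _ _ _ fun i _ => hdeg i
      _ = W.card * (1 + D) := by ring
      _ ≤ ⌊b / v⌋₊ * N0 * (1 + D) := Nat.mul_le_mul_right _ hWcard
  refine ⟨S, hScard, ?_⟩
  by_contra hcon
  obtain ⟨V, hV, hVN, hVδ⟩ := h0 ι B A β hA hd hI _ hcon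
  have hVS : ∀ v ∈ V, v ∉ S := fun v hv => (Finset.mem_sdiff.mp (hV hv)).2
  have hVF : V ∉ F := by
    intro hVF
    have hVe : V = ∅ := by
      rw [Finset.eq_empty_iff_forall_notMem]
      intro v hv
      exact hVS v hv (Finset.mem_union_left _ (Finset.mem_biUnion.mpr ⟨V, hVF, hv⟩))
    rw [hVe, pre_empty, mp_empty A hA] at hVδ
    linarith
  have hnew : insert V F ∈ good := by
    rw [hgood, Finset.mem_filter]
    refine ⟨Finset.mem_univ _, ?_, ?_⟩
    · have key : ∀ U ∈ F, Disjoint U V ∧ ∀ i, β i ∈ U → ∀ j, β j ∈ V → A i j = 0 := by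
        intro U hU
        constructor
        · rw [Finset.disjoint_left]
          intro i hiU hiV
          exact hVS i hiV (Finset.mem_union_left _ (Finset.mem_biUnion.mpr ⟨U, hU, hiU⟩))
        · intro i hi j hj
          refine crs_zero (b := β i) (c := β j) (β := β) ?_ i j rfl rfl
          by_contra hne
          refine hVS (β j) hj (Finset.mem_union_right _ (Finset.mem_biUnion.mpr
            ⟨β i, Finset.mem_biUnion.mpr ⟨U, hU, hi⟩, ?_⟩))
          exact Finset.mem_filter.mpr ⟨Finset.mem_univ _, hne⟩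
      intro U hU U' hU' hne
      rcases Finset.mem_insert.mp hU with hU1 | hU1 <;>
        rcases Finset.mem_insert.mp hU' with hU2 | hU2
      · exact absurd (hU1.trans hU2.symm) hne
      · subst hU1
        refine ⟨(key U' hU2).1.symm, fun i hi j hj => ?_⟩
        have h1 := (key U' hU2).2 j hj i hi
        rw [← hA.apply i j, h1, star_zero]
      · subst hU2
        exact key U hU1
      · exact hsep U hU1 U' hU2 hne
    · intro U hU
      rcases Finset.mem_insert.mp hU with hU1 | hU1
      · subst hU1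
        exact ⟨hVN, hVδ⟩
      · exact hFU U hU1
  have := hmax _ hnew
  rw [Finset.card_insert_of_notMem hVF] at this
  omega

end

end Q262.NS
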