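import Mathlib
import Pool.Agent.Q262.NS.Pert
import Pool.Agent.Q262.NS.Pk2
import Pool.Agent.Q262.FR.Metric

/-!
# Nearly Hermitian matrices
-/

set_option autoImplicit false
set_option linter.unusedSectionVars false

namespace Q262.NS

open MeasureTheory Polynomial Filter Topology Matrix
open Pool.Agent.H261R2.CM (ez D_norm_ez toC)
open Pool.Agent.W242.IM
open Pool.Agent.Y820.LB (Dom act act_mul act_add act_sub)
open Q262.FR (cst)

noncomputable section

variable {n : ℕ}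

/-- Hermitian up to a bounded number of rows -/
structure NH (k : ℕ) (A : Matrix (Fin n) (Fin n) ℂ) (Z : Finset (Fin n)) : Prop where
  card : Z.card ≤ k
  herm : ∀ i j, i ∉ Z → A j i = star (A i j)
  frob : ∑ i, ∑ j, ‖A i j - star (A j i)‖ ^ 2 ≤ k

/-- the Hermitian part -/
def hm (A : Matrix (Fin n) (Fin n) ℂ) : Matrix (Fin n) (Fin n) ℂ :=
  Matrix.of fun i j => (A i j + star (A j i)) / 2

theorem hm_herm (A : Matrix (Fin n) (Fin n) ℂ) : (hm A).IsHermitian := by
  ext i j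
  simp only [hm, Matrix.conjTranspose_apply, Matrix.of_apply, star_div₀, star_add, star_star]
  have h2 : star (2 : ℂ) = 2 := by simp
  rw [h2, add_comm]

theorem skew_apply (A : Matrix (Fin n) (Fin n) ℂ) (i j : Fin n) :
    (A - hm A) i j = (A i j - star (A j i)) / 2 := by
  simp only [hm, Matrix.sub_apply, Matrix.of_apply]
  ring

theorem frob_half {k : ℕ} {A : Matrix (Fin n) (Fin n) ℂ} {Z : Finset (Fin n)} (h : NH k A Z) :
    ∑ i, ∑ j, ‖(A - hm A) i j‖ ^ 2 ≤ k / 4 := by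
  have h1 : ∑ i, ∑ j, ‖(A - hm A) i j‖ ^ 2 = (∑ i, ∑ j, ‖A i j - star (A j i)‖ ^ 2) / 4 := by
    rw [Finset.sum_div]
    refine Finset.sum_congr rfl fun i _ => ?_
    rw [Finset.sum_div]
    refine Finset.sum_congr rfl fun j _ => ?_
    rw [skew_apply, norm_div, div_pow]
    norm_num
  rw [h1]
  linarith [h.frob]

/-- the difference of the traces of the squares -/
theorem trace_diff (A : Matrix (Fin n) (Fin n) ℂ) :
    (hm A * hm A).trace.re - (A * A).trace.re = ∑ i, ∑ j, ‖(A - hm A) i j‖ ^ 2 := by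
  simp only [Matrix.trace, Matrix.diag_apply, Matrix.mul_apply, Complex.re_sum]
  rw [← Finset.sum_sub_distrib]
  refine Finset.sum_congr rfl fun i _ => ?_
  rw [← Finset.sum_sub_distrib]
  refine Finset.sum_congr rfl fun j _ => ?_
  rw [skew_apply]
  have e1 : (hm A i j * hm A j i).re = ‖hm A i j‖ ^ 2 := by
    have e2 : hm A j i = star (hm A i j) := ((hm_herm A).apply j i).symm
    rw [e2]
    have := Complex.mul_conj (hm A i j)
    rw [Complex.normSq_eq_norm_sq] at this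
    have e3 : star (hm A i j) = (starRingEnd ℂ) (hm A i j) := rfl
    rw [e3, this, Complex.ofReal_re]
  rw [e1]
  have e4 : hm A i j = (A i j + star (A j i)) / 2 := rfl
  rw [e4, ← Complex.normSq_eq_norm_sq, ← Complex.normSq_eq_norm_sq, Complex.normSq_apply,
    Complex.normSq_apply]
  have e5 : ∀ z : ℂ, (z / 2).re = z.re / 2 := fun z => by simp
  have e6 : ∀ z : ℂ, (z / 2).im = z.im / 2 := fun z => by simp
  rw [e5, e6, e5, e6]
  simp only [Complex.add_re, Complex.add_im, Complex.sub_re, Complex.sub_im, Complex.star_def,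
    Complex.conj_re, Complex.conj_im, Complex.mul_re]
  ring

/-- the norm is at most the Frobenius norm -/
theorem norm_le_frob (M : Matrix (Fin n) (Fin n) ℂ) (N : ℝ) (hN : 0 ≤ N)
    (h : ∑ i, ∑ j, ‖M i j‖ ^ 2 ≤ N ^ 2) (x : EuclideanSpace ℂ (Fin n)) :
    ‖act M x‖ ≤ N * ‖x‖ := by
  refine Q262.FR.norm_le_of M N hN (fun y => ?_) x
  have h1 : ∀ i, ‖(M.mulVec y) i‖ ^ 2 ≤ (∑ j, ‖M i j‖ ^ 2) * ∑ j, ‖y j‖ ^ 2 := by
    intro i
    have h2 : ‖(M.mulVec y) i‖ ≤ ∑ j, ‖M i j‖ * ‖y j‖ := by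
      unfold Matrix.mulVec dotProduct
      refine (norm_sum_le _ _).trans (le_of_eq (Finset.sum_congr rfl fun j _ => norm_mul _ _))
    have h3 := Finset.sum_mul_sq_le_sq_mul_sq Finset.univ (fun j => ‖M i j‖) (fun j => ‖y j‖)
    exact (pow_le_pow_left₀ (norm_nonneg _) h2 2).trans h3
  calc ∑ i, ‖(M.mulVec y) i‖ ^ 2 ≤ ∑ i, (∑ j, ‖M i j‖ ^ 2) * ∑ j, ‖y j‖ ^ 2 :=
        Finset.sum_le_sum fun i _ => h1 i
    _ = (∑ i, ∑ j, ‖M i j‖ ^ 2) * ∑ j, ‖y j‖ ^ 2 := by rw [Finset.sum_mul]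
    _ ≤ N ^ 2 * ∑ j, ‖y j‖ ^ 2 := mul_le_mul_of_nonneg_right h
        (Finset.sum_nonneg fun _ _ => by positivity)

/-! ### zeroing rows and columns -/

/-- the matrix with the rows and columns of `T` replaced by zero -/
def zo (T : Finset (Fin n)) (M : Matrix (Fin n) (Fin n) ℂ) : Matrix (Fin n) (Fin n) ℂ :=
  Matrix.of fun i j => if i ∈ T ∨ j ∈ T then 0 else M i j

theorem zo_apply (T : Finset (Fin n)) (M : Matrix (Fin n) (Fin n) ℂ) (i j : Fin n) :
    zo T M i j = if i ∈ T ∨ j ∈ T then 0 else M i j := rfl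

theorem zo_zo (S T : Finset (Fin n)) (M : Matrix (Fin n) (Fin n) ℂ) :
    zo S (zo T M) = zo (T ∪ S) M := by
  ext i j
  simp only [zo_apply, Finset.mem_union]
  by_cases h1 : i ∈ S <;> by_cases h2 : j ∈ S <;> by_cases h3 : i ∈ T <;>
    by_cases h4 : j ∈ T <;> simp [h1, h2, h3, h4]

/-- the vector with the coordinates in `T` replaced by zero -/
def zv (T : Finset (Fin n)) (y : Fin n → ℂ) : Fin n → ℂ := fun i => if i ∈ T then 0 else y i

theorem nsq_zv_le (T : Finset (Fin n)) (y : Fin n → ℂ) : nsq (zv T y) ≤ nsq y := by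
  unfold nsq zv
  refine Finset.sum_le_sum fun i _ => ?_
  split_ifs
  · simp
  · exact le_rfl

theorem qf_zo (T : Finset (Fin n)) (M : Matrix (Fin n) (Fin n) ℂ) (y : Fin n → ℂ) :
    qf (zo T M) y = qf M (zv T y) := by
  unfold qf
  congr 1
  simp only [dotProduct, mulVec, Pi.star_apply, zo_apply, zv]
  refine Finset.sum_congr rfl fun i _ => ?_
  rw [Finset.mul_sum, Finset.mul_sum]
  refine Finset.sum_congr rfl fun j _ => ?_
  by_cases h1 : i ∈ T <;> by_cases h2 : j ∈ T <;> simp [h1, h2]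

theorem qf_zv (T : Finset (Fin n)) (M : Matrix (Fin n) (Fin n) ℂ) (y : Fin n → ℂ) :
    qf M (zv T y) = qf (sm M (Finset.univ \ T)) (fun i => y i) ∧
      nsq (zv T y) = nsq (fun i : (Finset.univ \ T : Finset (Fin n)) => y i) := by
  have h1 : Function.extend (Subtype.val : (Finset.univ \ T : Finset (Fin n)) → Fin n)
      (fun i => y i) 0 = zv T y := by
    funext i
    unfold zv
    by_cases hi : i ∈ T
    · rw [if_pos hi, Function.extend_apply']
      · rfl
      · rintro ⟨a, ha⟩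
        exact (Finset.mem_sdiff.mp a.2).2 (ha ▸ hi)
    · rw [if_neg hi]
      exact Subtype.val_injective.extend_apply
        (fun i : (Finset.univ \ T : Finset (Fin n)) => y i) 0
        ⟨i, Finset.mem_sdiff.mpr ⟨Finset.mem_univ _, hi⟩⟩
  rw [← h1]
  exact ⟨qf_extend _ Subtype.val_injective _ _, nsq_extend _ Subtype.val_injective _⟩

theorem zo_herm {k : ℕ} {A : Matrix (Fin n) (Fin n) ℂ} {Z : Finset (Fin n)} (h : NH k A Z)
    (T : Finset (Fin n)) (hT : Z ⊆ T) : (zo T A).IsHermitian := by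
  ext i j
  rw [Matrix.conjTranspose_apply, zo_apply, zo_apply]
  by_cases hi : i ∈ T
  · simp [hi]
  · by_cases hj : j ∈ T
    · simp [hj]
    · rw [if_neg (by tauto), if_neg (by tauto), h.herm i j (fun h1 => hi (hT h1)), star_star]

theorem zo_hm {k : ℕ} {A : Matrix (Fin n) (Fin n) ℂ} {Z : Finset (Fin n)} (h : NH k A Z) :
    zo Z A = zo Z (hm A) := by
  ext i j
  rw [zo_apply, zo_apply]
  split_ifs with h1
  · rfl
  · push Not at h1
    have h2 : hm A i j = (A i j + star (A j i)) / 2 := rfl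
    rw [h2, h.herm i j h1.1, star_star]
    ring

theorem cp_zero (U : Finset (Fin n)) (M : Matrix (Fin n) (Fin n) ℂ)
    (h : ∀ i ∈ U, ∀ j ∈ U, M i j = 0) : cp M U = X ^ U.card := by
  have h1 : sm M U = 0 := by
    ext i j
    exact h i.1 i.2 j.1 j.2
  unfold cp
  rw [h1, Matrix.charpoly_zero, Fintype.card_coe]

theorem itg_zo {Bl : Type} [Fintype Bl] [DecidableEq Bl] {A : Matrix (Fin n) (Fin n) ℂ}
    {β : Fin n → Bl} {Z : Finset Bl} (hI : ∀ U, Disjoint U Z → Itg A (pre β U)) (U : Finset Bl) :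
    Itg (zo (pre β Z) A) (pre β U) := by
  have h1 : pre β U = pre β (U \ Z) ∪ pre β (U ∩ Z) := by
    rw [← pre_union, Finset.sdiff_union_inter]
  have h2 : cp (zo (pre β Z) A) (pre β (U \ Z)) = cp A (pre β (U \ Z)) := by
    unfold cp
    congr 1
    ext i j
    show zo (pre β Z) A i j = A i j
    have hi : (i : Fin n) ∉ pre β Z := fun h =>
      (Finset.mem_sdiff.mp (mem_pre.mp i.2)).2 (mem_pre.mp h)
    have hj : (j : Fin n) ∉ pre β Z := fun h =>
      (Finset.mem_sdiff.mp (mem_pre.mp j.2)).2 (mem_pre.mp h)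
    rw [zo_apply, if_neg (by tauto)]
  have hz : ∀ i ∈ pre β (U ∩ Z), i ∈ pre β Z := fun i hi =>
    mem_pre.mpr (Finset.mem_inter.mp (mem_pre.mp hi)).2
  have h3 : cp (zo (pre β Z) A) (pre β U) =
      cp A (pre β (U \ Z)) * X ^ (pre β (U ∩ Z)).card := by
    have h4 := cp_zero (pre β (U ∩ Z)) (zo (pre β Z) A) (fun i hi j hj => by
      rw [zo_apply, if_pos (Or.inl (hz i hi))])
    rw [h1, cp_union (zo (pre β Z) A) (pre β (U \ Z)) (pre β (U ∩ Z)), h2, h4]
    · rw [Finset.disjoint_left]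
      intro i hi hj
      exact (Finset.mem_sdiff.mp (mem_pre.mp hi)).2 (Finset.mem_inter.mp (mem_pre.mp hj)).2
    · intro i hi j hj
      rw [zo_apply, if_pos (Or.inl (hz i hi))]
  obtain ⟨p, hp⟩ := hI (U \ Z) (Finset.sdiff_disjoint)
  refine ⟨p * X ^ (pre β (U ∩ Z)).card, ?_⟩
  rw [h3, ← hp]
  unfold toC
  rw [Polynomial.map_mul, Polynomial.map_pow, map_X]

theorem mrank_add_le (M N : Matrix (Fin n) (Fin n) ℂ) : (M + N).rank ≤ M.rank + N.rank := by
  have h1 := Submodule.finrank_add_le_finrank_add_finrank (LinearMap.range M.mulVecLin)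
    (LinearMap.range N.mulVecLin)
  refine le_trans (Submodule.finrank_mono ?_) h1
  rintro _ ⟨x, rfl⟩
  rw [Matrix.mulVecLin_add, LinearMap.add_apply]
  exact Submodule.add_mem_sup ⟨x, rfl⟩ ⟨x, rfl⟩

/-- the rank of a matrix vanishing outside the rows and columns of `T` -/
theorem rank_le_two (T : Finset (Fin n)) (M : Matrix (Fin n) (Fin n) ℂ)
    (h : ∀ i j, i ∉ T → j ∉ T → M i j = 0) : M.rank ≤ 2 * T.card := by
  classical
  set D : Matrix (Fin n) (Fin n) ℂ := diagonal fun i => if i ∈ T then 1 else 0 with hD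
  have hr : D.rank = T.card := by
    rw [hD, rank_diagonal]
    have h1 : Fintype.card {i // (if i ∈ T then (1:ℂ) else 0) ≠ 0} = Fintype.card {i // i ∈ T} := by
      refine Fintype.card_congr (Equiv.subtypeEquivRight fun i => ?_)
      by_cases hi : i ∈ T <;> simp [hi]
    rw [h1, Fintype.card_coe]
  have h1 : M = D * M + (M - D * M) * D := by
    ext i j
    rw [Matrix.add_apply, hD, Matrix.diagonal_mul, Matrix.mul_diagonal, Matrix.sub_apply,
      Matrix.diagonal_mul]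
    by_cases hi : i ∈ T
    · simp [hi]
    · by_cases hj : j ∈ T
      · simp [hi, hj]
      · simp [hi, hj, h i j hi hj]
  rw [h1]
  refine (mrank_add_le _ _).trans ?_
  have h2 := Matrix.rank_mul_le_left D M
  have h3 := Matrix.rank_mul_le_right (M - D * M) D
  omega

theorem rank_skew {k : ℕ} {A : Matrix (Fin n) (Fin n) ℂ} {Z : Finset (Fin n)} (h : NH k A Z) :
    (A - hm A).rank ≤ 2 * k := by
  refine (rank_le_two Z _ fun i j hi _ => ?_).trans (Nat.mul_le_mul_left 2 h.card)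
  rw [skew_apply, h.herm i j hi, star_star]
  simp

/-! ### the bounds -/

theorem Psi_lower {s : ℝ} (hs : 0 ≤ s) : (s ^ 2 - s) / 2 ≤ Psi s := by
  unfold Psi
  rw [Real.sinh_eq]
  have h1 := Real.quadratic_le_exp_of_nonneg (by linarith : 0 ≤ 2 * s)
  have h2 : Real.exp (-(2 * s)) ≤ 1 := Real.exp_le_one_iff.mpr (by linarith)
  nlinarith

theorem abs_le_of_ps {l b : ℝ} (hb : 0 ≤ b) (h : ps l ≤ b) : |l| ≤ 2 * Real.exp (1 + 2 * b) := by
  have h1 : phi l ≤ 1 + 2 * b := by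
    have h2 := Psi_lower (phi_nonneg l)
    have h3 : Psi (phi l) ≤ b := h
    by_contra hcon
    push Not at hcon
    nlinarith
  rcases eq_or_lt_of_le (abs_nonneg l) with h0 | h0
  · rw [← h0]
    positivity
  · have h2 : Real.log (|l| / 2) ≤ 1 + 2 * b :=
      (le_max_right _ _).trans ((posLog_half_le_phi _).trans h1)
    rw [Real.log_le_iff_le_exp (by positivity)] at h2
    linarith

/-- the bound for the excess of the Hermitian part -/
def b1 (k : ℕ) (B : ℝ) : ℝ := 2 * cst (2 * k) (c1 k) + k + Real.exp (2 * B) * B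

theorem exc_hm {k : ℕ} {A : Matrix (Fin n) (Fin n) ℂ} {Z : Finset (Fin n)} (h : NH k A Z)
    (B : ℝ) (hB : mp A.charpoly ≤ B) :
    ∑ j, ps ((hm_herm A).eigenvalues j) ≤ b1 k B := by
  have hk0 : (0:ℝ) ≤ k := Nat.cast_nonneg k
  have hN : ∀ x, ‖act (A - hm A) x‖ ≤ (k : ℝ) * ‖x‖ := by
    refine norm_le_frob _ _ hk0 ((frob_half h).trans ?_)
    rcases Nat.eq_zero_or_pos k with h0 | h0
    · rw [h0]
      norm_num
    · have h1 : (1:ℝ) ≤ k := by exact_mod_cast h0
      nlinarith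
  obtain ⟨F, hD, hF⟩ := jou_pair (2 * k) k hk0 (hm A) A (hm_herm A) hN (rank_skew h)
  have h1 := semicircle A (hm A) (hm_herm A) F _ hD hF
  have h2 := exc_le A B hB
  rw [trace_diff] at h1
  have h3 := frob_half h
  have h4 : ∑ j, ps ((hm_herm A).eigenvalues j) =
      ∑ j, Psi (phi ((hm_herm A).eigenvalues j)) := rfl
  rw [h4]
  unfold b1
  linarith

theorem mulVec_eq_act (M : Matrix (Fin n) (Fin n) ℂ) (ρ : ℝ) (hρ : 0 ≤ ρ)
    (h : ∀ x, nsq (M *ᵥ x) ≤ ρ ^ 2 * nsq x) (x : EuclideanSpace ℂ (Fin n)) :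
    ‖act M x‖ ≤ ρ * ‖x‖ := Q262.FR.norm_le_of M ρ hρ h x

/-- **The reduction**: the characteristic polynomial of a nearly Hermitian matrix of bounded measure
has bounded height with respect to a polynomial of measure one. -/
theorem ns_height (d k : ℕ) (B : ℝ) : ∃ C : ℝ, ∀ (n : ℕ) (Bl : Type) [Fintype Bl] [DecidableEq Bl]
    (A : Matrix (Fin n) (Fin n) ℂ) (β : Fin n → Bl) (Z : Finset Bl),
    (∀ b, (pre β {b}).card ≤ d) → NH k A (pre β Z) → (∀ U, Disjoint U Z → Itg A (pre β U)) →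
    mp A.charpoly ≤ B →
      ∃ q : ℤ[X], q.Monic ∧ mp (toC q) = 0 ∧ hp A.charpoly (toC q) ≤ C := by
  set B' := max B 0 with hB'
  have hB'0 : 0 ≤ B' := le_max_right _ _
  have hk0 : (0:ℝ) ≤ k := Nat.cast_nonneg k
  have hb0 : 0 ≤ max (b1 k B') 0 := le_max_right _ _
  set b := max (b1 k B') 0 with hb
  set ρ := 2 * Real.exp (1 + 2 * b) with hρ
  have hρ0 : 0 ≤ ρ := by positivity
  obtain ⟨s, hs⟩ := deletion_ps_block d (b + 2 * k * ps ρ) ρ
  refine ⟨cst (2 * (k + s * d)) (c1 (ρ + k + 2)), fun n Bl _ _ A β Z hd h hI hPB => ?_⟩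
  have hmpB : mp A.charpoly ≤ B' := hPB.trans (le_max_left _ _)
  have hexc := (exc_hm h B' hmpB).trans (le_max_left _ 0)
  rw [← hb] at hexc
  have hH := hm_herm A
  have hρH : ∀ j, |hH.eigenvalues j| ≤ ρ := by
    intro j
    refine abs_le_of_ps hb0 (le_trans ?_ hexc)
    exact Finset.single_le_sum (f := fun j => ps (hH.eigenvalues j))
      (fun _ _ => ps_nonneg _) (Finset.mem_univ j)
  set Y := pre β Z with hY
  have hA0 := zo_herm h Y (Finset.Subset.refl Y)
  have hqf0 : ∀ y, qf (zo Y A) y = qf (hm A) (zv Y y) := by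
    intro y
    rw [zo_hm h, qf_zo]
  have hρ0' : ∀ j, |hA0.eigenvalues j| ≤ ρ := by
    intro j
    obtain ⟨y, h1, h2⟩ := exists_eigen (sd_of_hermitian hA0) j
    have h3 := qf_abs_le (sd_of_hermitian hH) ρ hρH (zv Y y)
    rw [← hqf0, h2] at h3
    have h4 := nsq_zv_le Y y
    rw [h1] at h4
    nlinarith
  have hep : ep (zo Y A).charpoly ≤ b + 2 * k * ps ρ := by
    rw [ep_charpoly hA0]
    have h1 := sum_ps_le (sd_of_hermitian hH) (sd_of_hermitian hA0) LinearMap.id
      (F := Y → ℂ) (LinearMap.funLeft ℂ ℂ (Subtype.val : Y → Fin n)) (fun x hx => by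
        have h2 : zv Y x = x := by
          funext i
          unfold zv
          split_ifs with hi
          · exact (congrFun hx ⟨i, hi⟩).symm
          · rfl
        refine ⟨rfl, ?_⟩
        rw [hqf0, h2]
        rfl) ρ hρ0'
    rw [Module.finrank_fintype_fun_eq_card, Fintype.card_coe] at h1
    have h2 : (Y.card : ℝ) ≤ k := by exact_mod_cast h.card
    have h3 : 2 * (Y.card : ℝ) * ps ρ ≤ 2 * k * ps ρ :=
      mul_le_mul_of_nonneg_right (by linarith) (ps_nonneg ρ)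
    linarith
  obtain ⟨S', hS', hcyc⟩ := hs (Fin n) Bl (zo Y A) β hA0 hd (itg_zo hI) hep hρ0'
  rw [pre_sdiff, pre_univ] at hcyc
  set S := pre β S' with hS
  have hScard : S.card ≤ s * d := (pre_card_le hd S').trans (Nat.mul_le_mul_right d hS')
  have hA1 := zo_herm h (Y ∪ S) Finset.subset_union_left
  have hcyc1 : mp (zo (Y ∪ S) A).charpoly = 0 := by
    refine cyc_of_qf_le hA1 fun y => ?_
    rw [← zo_zo, qf_zo, (qf_zv S (zo Y A) y).1]
    refine (qf_le_of_cyc (sm_hermitian hA0 _) hcyc _).trans ?_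
    rw [← (qf_zv S (zo Y A) y).2]
    exact mul_le_mul_of_nonneg_left (nsq_zv_le S y) (by norm_num)
  have hA1ρ : ∀ j, |hA1.eigenvalues j| ≤ 2 := (mp_eq_zero_iff hA1).mp hcyc1
  have hrank : (A - zo (Y ∪ S) A).rank ≤ 2 * (k + s * d) := by
    refine (rank_le_two (Y ∪ S) _ fun i j hi hj => ?_).trans ?_
    · rw [Matrix.sub_apply, zo_apply, if_neg (by tauto), sub_self]
    · have h1 := Finset.card_union_le Y S
      have h2 := h.card
      omega
  have hnorm : ∀ x, ‖act (A - zo (Y ∪ S) A) x‖ ≤ (ρ + k + 2) * ‖x‖ := by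
    intro x
    have h1 : A - zo (Y ∪ S) A = hm A + (A - hm A) - zo (Y ∪ S) A := by abel
    have h2 := mulVec_eq_act (hm A) ρ hρ0 (nsq_mulVec_le hH ρ hρH) x
    have h3 := mulVec_eq_act (zo (Y ∪ S) A) 2 (by norm_num) (nsq_mulVec_le hA1 2 hA1ρ) x
    have h4 : ‖act (A - hm A) x‖ ≤ (k : ℝ) * ‖x‖ := by
      refine norm_le_frob _ _ hk0 ((frob_half h).trans ?_) x
      rcases Nat.eq_zero_or_pos k with h0 | h0
      · rw [h0]
        norm_num
      · have h1 : (1:ℝ) ≤ k := by exact_mod_cast h0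
        nlinarith
    rw [h1, act_sub, act_add]
    calc ‖act (hm A) x + act (A - hm A) x - act (zo (Y ∪ S) A) x‖
        ≤ ‖act (hm A) x‖ + ‖act (A - hm A) x‖ + ‖act (zo (Y ∪ S) A) x‖ :=
          (norm_sub_le _ _).trans (add_le_add_left (norm_add_le _ _) _)
      _ ≤ (ρ + k + 2) * ‖x‖ := by linarith
  obtain ⟨F, hD, hF⟩ := jou_pair (2 * (k + s * d)) (ρ + k + 2) (by linarith) _ A hA1 hnorm hrank
  have hh := hp_le A _ F _ hD hF
  -- the integral polynomial
  have hcpu : cp (zo (Y ∪ S) A) Finset.univ = (zo (Y ∪ S) A).charpoly := mp_univ _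
  obtain ⟨q, hq⟩ : ∃ q : ℤ[X], toC q = (zo (Y ∪ S) A).charpoly := by
    have h1 : ∀ U, Disjoint U (Z ∪ S') → Itg A (pre β U) := fun U hU =>
      hI U (Finset.disjoint_of_subset_right Finset.subset_union_left hU)
    obtain ⟨q, hq⟩ := itg_zo h1 Finset.univ
    rw [pre_union, pre_univ] at hq
    exact ⟨q, by rw [hq, hcpu]⟩
  refine ⟨q, toC_monic (by rw [hq]; exact charpoly_monic _), by rw [hq, hcyc1], ?_⟩
  rw [hq]
  rw [hcyc1, zero_add] at hh
  exact hh

end

end Q262.NS
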