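import Mathlib
import Pool.Agent.W242.IM.IntPoly
import Pool.Agent.H261R2.CM.L2

/-!
# Reciprocal polynomials as characteristic polynomials of nearly symmetric matrices
-/

set_option autoImplicit false

namespace Q262.NS

open Polynomial Matrix
open Pool.Agent.H261R2.CM (toC len ev1)
open Pool.Agent.W242.IM

noncomputable section

/-- Chebyshev polynomials of the second kind -/
def us : ℕ → ℤ[X]
  | 0 => 1
  | 1 => X
  | (m + 2) => X * us (m + 1) - us m

theorem us_succ (m : ℕ) : us (m + 2) = X * us (m + 1) - us m := rfl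

theorem us_deg (m : ℕ) : (us m).natDegree ≤ m ∧ (us (m + 1)).natDegree ≤ m + 1 := by
  induction m with
  | zero =>
    constructor
    · show (1 : ℤ[X]).natDegree ≤ 0
      rw [natDegree_one]
    · show (X : ℤ[X]).natDegree ≤ 1
      rw [natDegree_X]
  | succ m ih =>
    refine ⟨ih.2, ?_⟩
    rw [us_succ]
    refine (natDegree_sub_le _ _).trans (max_le ?_ ?_)
    · refine natDegree_mul_le.trans ?_
      rw [natDegree_X]
      have := ih.2
      omega
    · have := ih.1
      omega

theorem Rc_add (n : ℕ) (p q : ℤ[X]) : Rc n (p + q) = Rc n p + Rc n q := by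
  unfold Rc
  rw [← Finset.sum_add_distrib]
  refine Finset.sum_congr rfl fun k _ => ?_
  rw [coeff_add, C_add]
  ring

theorem Rc_sub (n : ℕ) (p q : ℤ[X]) : Rc n (p - q) = Rc n p - Rc n q := by
  unfold Rc
  rw [← Finset.sum_sub_distrib]
  refine Finset.sum_congr rfl fun k _ => ?_
  rw [coeff_sub, C_sub]
  ring

theorem Rc_sum {ι : Type*} (s : Finset ι) (n : ℕ) (f : ι → ℤ[X]) :
    Rc n (∑ i ∈ s, f i) = ∑ i ∈ s, Rc n (f i) := by
  classical
  induction s using Finset.induction_on with
  | empty =>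
    rw [Finset.sum_empty, Finset.sum_empty]
    unfold Rc
    simp
  | insert a s ha ih => rw [Finset.sum_insert ha, Finset.sum_insert ha, Rc_add, ih]

theorem Rc_one (n : ℕ) : Rc n 1 = X ^ n := by
  unfold Rc
  rw [Finset.sum_eq_single 0]
  · simp
  · intro b _ hb
    rw [coeff_one, if_neg hb]
    simp
  · intro h
    exact absurd (Finset.mem_range.mpr (Nat.succ_pos n)) h

theorem Rc_X : Rc 1 X = X ^ 2 + 1 := by
  unfold Rc
  rw [Finset.sum_range_succ, Finset.sum_range_one, coeff_X_zero, coeff_X_one]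
  simp

theorem Rc_C (c : ℤ) : Rc 0 (C c) = C c := by
  unfold Rc
  simp

theorem Rc_lift (n m : ℕ) (p : ℤ[X]) (hm : p.natDegree ≤ m) :
    Rc (n + m) p = X ^ n * Rc m p := by
  have h := Rc_mul n m 1 p (by rw [natDegree_one]; omega) hm
  rw [one_mul, Rc_one] at h
  exact h

theorem Rc_us (m : ℕ) : (X ^ 2 - 1) * Rc m (us m) = X ^ (2 * m + 2) - 1 ∧
    (X ^ 2 - 1) * Rc (m + 1) (us (m + 1)) = X ^ (2 * m + 4) - 1 := by
  induction m with
  | zero =>
    constructor
    · have h : Rc 0 (us 0) = 1 := by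
        show Rc 0 1 = 1
        rw [Rc_one, pow_zero]
      rw [h, mul_one]
    · have h : Rc (0 + 1) (us (0 + 1)) = X ^ 2 + 1 := Rc_X
      rw [h]
      ring
  | succ m ih =>
    refine ⟨ih.2, ?_⟩
    have hd := us_deg m
    have h1 : Rc (m + 1 + 1) (us (m + 1 + 1)) =
        (X ^ 2 + 1) * Rc (m + 1) (us (m + 1)) - X ^ 2 * Rc m (us m) := by
      have h2 : us (m + 1 + 1) = X * us (m + 1) - us m := us_succ m
      rw [h2, Rc_sub]
      have h3 : m + 1 + 1 = 1 + (m + 1) := by ring
      have h4 : m + 1 + 1 = 2 + m := by ring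
      congr 1
      · rw [h3, Rc_mul 1 (m + 1) X (us (m + 1)) (by rw [natDegree_X]) hd.2, Rc_X]
      · rw [h4, Rc_lift 2 m (us m) hd.1]
    rw [h1]
    have h5 := ih.1
    have h6 := ih.2
    calc (X ^ 2 - 1) * ((X ^ 2 + 1) * Rc (m + 1) (us (m + 1)) - X ^ 2 * Rc m (us m))
        = (X ^ 2 + 1) * ((X ^ 2 - 1) * Rc (m + 1) (us (m + 1))) -
          X ^ 2 * ((X ^ 2 - 1) * Rc m (us m)) := by ring
      _ = X ^ (2 * (m + 1) + 4) - 1 := by
          rw [h5, h6]
          ring

/-- the matrix -/
def cm (m : ℕ) (d : ℕ → ℤ) : Matrix (Fin (m + 1)) (Fin (m + 1)) ℤ :=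
  Matrix.of fun i j => (if (i : ℕ) + 1 = j ∨ (j : ℕ) + 1 = i then 1 else 0) -
    (if i = 0 then d j else 0)

theorem cm_apply (m : ℕ) (d : ℕ → ℤ) (i j : Fin (m + 1)) :
    cm m d i j = (if (i : ℕ) + 1 = j ∨ (j : ℕ) + 1 = i then 1 else 0) -
      (if i = 0 then d j else 0) := rfl

/-- the sum of a function supported on the two neighbours of `i` -/
theorem sum_nbr (m : ℕ) (f : ℕ → ℤ[X]) (i : ℕ) (hi : i ≤ m) :
    ∑ j : Fin (m + 1), (if i + 1 = (j : ℕ) ∨ (j : ℕ) + 1 = i then f j else 0) =
      (if i < m then f (i + 1) else 0) + (if 0 < i then f (i - 1) else 0) := by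
  rw [Fin.sum_univ_eq_sum_range (fun j => if i + 1 = j ∨ j + 1 = i then f j else 0) (m + 1)]
  have h1 : ∀ j, (if i + 1 = j ∨ j + 1 = i then f j else 0) =
      (if j = i + 1 then f j else 0) + (if j + 1 = i then f j else 0) := by
    intro j
    by_cases h2 : i + 1 = j
    · have h3 : ¬ j + 1 = i := by omega
      have h4 : j = i + 1 := h2.symm
      rw [if_pos (Or.inl h2), if_pos h4, if_neg h3, add_zero]
    · have h4 : ¬ j = i + 1 := fun h => h2 h.symm
      by_cases h3 : j + 1 = i
      · rw [if_pos (Or.inr h3), if_neg h4, if_pos h3, zero_add]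
      · rw [if_neg (by tauto), if_neg h4, if_neg h3, add_zero]
  simp_rw [h1]
  rw [Finset.sum_add_distrib]
  congr 1
  · rw [Finset.sum_ite_eq']
    by_cases h2 : i < m
    · rw [if_pos (Finset.mem_range.mpr (by omega)), if_pos h2]
    · rw [if_neg (by rw [Finset.mem_range]; omega), if_neg h2]
  · by_cases h2 : 0 < i
    · rw [if_pos h2, Finset.sum_eq_single (i - 1)]
      · rw [if_pos (by omega)]
      · intro b _ hb
        rw [if_neg (by omega)]
      · intro h3
        exact absurd (Finset.mem_range.mpr (by omega)) h3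
    · rw [if_neg h2]
      refine Finset.sum_eq_zero fun j _ => ?_
      rw [if_neg (by omega)]

theorem cm_mulVec (m : ℕ) (d : ℕ → ℤ) (i : Fin (m + 1)) :
    ((cm m d).charmatrix *ᵥ fun j : Fin (m + 1) => us (m - j)) i =
      if i = 0 then us (m + 1) + ∑ j ∈ Finset.range (m + 1), C (d j) * us (m - j) else 0 := by
  have h1 : ((cm m d).charmatrix *ᵥ fun j : Fin (m + 1) => us (m - j)) i =
      X * us (m - i) - ∑ j : Fin (m + 1),
        (if (i : ℕ) + 1 = (j : ℕ) ∨ (j : ℕ) + 1 = i then us (m - j) else 0) +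
        (if i = 0 then ∑ j : Fin (m + 1), C (d j) * us (m - j) else 0) := by
    have h2 : ∀ j : Fin (m + 1), (cm m d).charmatrix i j * us (m - j) =
        (if j = i then X * us (m - i) else 0) -
        (if (i : ℕ) + 1 = (j : ℕ) ∨ (j : ℕ) + 1 = i then us (m - j) else 0) +
        (if i = 0 then C (d j) * us (m - j) else 0) := by
      intro j
      rw [charmatrix_apply, cm_apply, diagonal_apply, C_sub]
      have h3 : (C (if (i : ℕ) + 1 = j ∨ (j : ℕ) + 1 = i then (1:ℤ) else 0) : ℤ[X]) =
          if (i : ℕ) + 1 = j ∨ (j : ℕ) + 1 = i then 1 else 0 := by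
        split_ifs <;> simp
      have h4 : (C (if i = 0 then d j else 0) : ℤ[X]) = if i = 0 then C (d j) else 0 := by
        split_ifs <;> simp
      rw [h3, h4]
      by_cases h5 : i = j
      · subst h5
        rw [if_pos rfl, if_pos rfl]
        by_cases h6 : i = 0
        · rw [if_pos h6, if_pos h6]
          split_ifs <;> ring
        · rw [if_neg h6, if_neg h6]
          split_ifs <;> ring
      · rw [if_neg h5, if_neg (show ¬ j = i from fun h => h5 h.symm)]
        by_cases h6 : i = 0
        · rw [if_pos h6, if_pos h6]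
          split_ifs <;> ring
        · rw [if_neg h6, if_neg h6]
          split_ifs <;> ring
    unfold mulVec dotProduct
    simp_rw [h2]
    rw [Finset.sum_add_distrib, Finset.sum_sub_distrib, Finset.sum_ite_eq' Finset.univ i,
      if_pos (Finset.mem_univ i)]
    congr 1
    split_ifs
    · rfl
    · exact Finset.sum_const_zero
  rw [h1, sum_nbr m (fun j => us (m - j)) i (Nat.lt_succ_iff.mp i.2),
    Fin.sum_univ_eq_sum_range (fun j => C (d j) * us (m - j)) (m + 1)]
  have hi := i.2
  by_cases h2 : i = 0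
  · subst h2
    rw [if_pos rfl, if_pos rfl]
    congr 1
    have h3 : ((0 : Fin (m + 1)) : ℕ) = 0 := rfl
    rw [h3, if_neg (lt_irrefl 0), add_zero, Nat.sub_zero]
    rcases Nat.eq_zero_or_pos m with h4 | h4
    · subst h4
      rw [if_neg (lt_irrefl 0), sub_zero]
      show X * us 0 = us 1
      show X * (1 : ℤ[X]) = X
      rw [mul_one]
    · obtain ⟨r, rfl⟩ := Nat.exists_eq_succ_of_ne_zero (by omega : m ≠ 0)
      rw [if_pos h4]
      have h5 : r.succ - (0 + 1) = r := by omega
      rw [h5]
      rfl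
  · rw [if_neg h2, if_neg h2, add_zero]
    have h3 : 0 < (i : ℕ) := Nat.pos_of_ne_zero fun h => h2 (Fin.ext h)
    rw [if_pos h3]
    by_cases h4 : (i : ℕ) < m
    · rw [if_pos h4]
      obtain ⟨r, hr⟩ : ∃ r, m - (i : ℕ) = r + 1 := ⟨m - i - 1, by omega⟩
      have h5 : m - ((i : ℕ) + 1) = r := by omega
      have h6 : m - ((i : ℕ) - 1) = r + 2 := by omega
      rw [h5, h6, hr, us_succ]
      ring
    · rw [if_neg h4]
      have h5 : m - (i : ℕ) = 0 := by omega
      have h6 : m - ((i : ℕ) - 1) = 1 := by omega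
      rw [h5, h6]
      show X * (1 : ℤ[X]) - (0 + X) = 0
      ring

theorem cm_adj (m : ℕ) (d : ℕ → ℤ) :
    (cm m d).charmatrix.adjugate (Fin.last m) 0 = 1 := by
  rw [adjugate_fin_succ_eq_det_submatrix]
  have h1 : ((cm m d).charmatrix.submatrix (Fin.succAbove 0) (Fin.succAbove (Fin.last m))).det =
      (-1) ^ m := by
    rw [det_of_isUpperTriangular]
    · have h2 : ∀ i : Fin m, ((cm m d).charmatrix.submatrix (Fin.succAbove 0)
          (Fin.succAbove (Fin.last m))) i i = -1 := by
        intro i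
        rw [submatrix_apply, Fin.succAbove_zero, Fin.succAbove_last, charmatrix_apply_ne, cm_apply,
          if_neg (Fin.succ_ne_zero i), sub_zero, if_pos, C_1]
        · right
          simp
        · intro h
          have := congrArg Fin.val h
          simp at this
      rw [Finset.prod_congr rfl fun i _ => h2 i]
      simp
    · intro i j hij
      have hij' : (j : ℕ) < i := hij
      rw [submatrix_apply, Fin.succAbove_zero, Fin.succAbove_last, charmatrix_apply_ne, cm_apply,
        if_neg (Fin.succ_ne_zero i), sub_zero, if_neg, C_0, neg_zero]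
      · simp
        omega
      · intro h
        have := congrArg Fin.val h
        simp at this
        omega
  rw [h1]
  have h3 : ((0 : Fin (m + 1)) : ℕ) + ((Fin.last m : Fin (m + 1)) : ℕ) = m := by simp
  rw [h3, ← mul_pow]
  norm_num

theorem cm_charpoly (m : ℕ) (d : ℕ → ℤ) : (cm m d).charpoly =
    us (m + 1) + ∑ j ∈ Finset.range (m + 1), C (d j) * us (m - j) := by
  set N := (cm m d).charmatrix with hN
  set v : Fin (m + 1) → ℤ[X] := fun j => us (m - j) with hv
  have h1 : N.adjugate *ᵥ (N *ᵥ v) = N.det • v := by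
    rw [mulVec_mulVec, adjugate_mul, smul_mulVec, one_mulVec]
  have h2 := congrFun h1 (Fin.last m)
  have h3 : (N.adjugate *ᵥ (N *ᵥ v)) (Fin.last m) =
      us (m + 1) + ∑ j ∈ Finset.range (m + 1), C (d j) * us (m - j) := by
    have h4 : N *ᵥ v = fun i => if i = 0 then
        us (m + 1) + ∑ j ∈ Finset.range (m + 1), C (d j) * us (m - j) else 0 :=
      funext fun i => cm_mulVec m d i
    rw [h4]
    unfold mulVec dotProduct
    rw [Finset.sum_eq_single (0 : Fin (m + 1))]
    · show N.adjugate (Fin.last m) 0 * (if (0 : Fin (m + 1)) = 0 then _ else 0) = _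
      rw [if_pos rfl, cm_adj, one_mul]
    · intro b _ hb
      show N.adjugate (Fin.last m) b * (if b = 0 then _ else 0) = 0
      rw [if_neg hb, mul_zero]
    · intro h
      exact absurd (Finset.mem_univ _) h
  rw [h3] at h2
  have h5 : (N.det • v) (Fin.last m) = N.det := by
    rw [Pi.smul_apply, hv]
    simp only [Fin.val_last, Nat.sub_self]
    show N.det • (1 : ℤ[X]) = N.det
    rw [smul_eq_mul, mul_one]
  rw [h5] at h2
  exact h2.symm

end

end Q262.NS
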