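import Mathlib
import Pool.Agent.Q262.NS.Col

/-!
# Reciprocal polynomials as characteristic polynomials of nearly symmetric matrices, II
-/

set_option autoImplicit false

namespace Q262.NS

open Polynomial Matrix
open Pool.Agent.H261R2.CM (toC len ev1)
open Pool.Agent.W242.IM

noncomputable section

theorem Rc_C_mul (m : ℕ) (c : ℤ) (p : ℤ[X]) (hm : p.natDegree ≤ m) :
    Rc m (C c * p) = C c * Rc m p := by
  have h := Rc_mul 0 m (C c) p (by rw [natDegree_C]) hm
  rw [Rc_C, zero_add] at h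
  exact h

theorem Rc_cm (m : ℕ) (d : ℕ → ℤ) : (X ^ 2 - 1) * Rc (m + 1) (cm m d).charpoly =
    X ^ (2 * m + 4) - 1 + ∑ j ∈ Finset.range (m + 1),
      C (d j) * (X ^ (2 * (m + 1) - j + 1) - X ^ (j + 1)) := by
  rw [cm_charpoly, Rc_add, Rc_sum, mul_add, (Rc_us m).2, Finset.mul_sum]
  congr 1
  refine Finset.sum_congr rfl fun j hj => ?_
  have hj' : j ≤ m := Nat.lt_succ_iff.mp (Finset.mem_range.mp hj)
  have hdeg : (us (m - j)).natDegree ≤ m - j := (us_deg (m - j)).1
  have h1 : m + 1 = (j + 1) + (m - j) := by omega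
  have h2 : Rc (m + 1) (C (d j) * us (m - j)) =
      X ^ (j + 1) * (C (d j) * Rc (m - j) (us (m - j))) := by
    conv_lhs => rw [h1]
    rw [Rc_lift (j + 1) (m - j) _ ?_, Rc_C_mul _ _ _ hdeg]
    refine natDegree_mul_le.trans ?_
    rw [natDegree_C]
    omega
  rw [h2]
  have h3 := (Rc_us (m - j)).1
  have h4 : 2 * (m + 1) - j + 1 = (j + 1) + (2 * (m - j) + 2) := by omega
  calc (X ^ 2 - 1) * (X ^ (j + 1) * (C (d j) * Rc (m - j) (us (m - j))))
      = C (d j) * (X ^ (j + 1) * ((X ^ 2 - 1) * Rc (m - j) (us (m - j)))) := by ring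
    _ = C (d j) * (X ^ (2 * (m + 1) - j + 1) - X ^ (j + 1)) := by
        rw [h3, h4, pow_add]
        ring

/-- the coordinates of a reciprocal polynomial -/
def dd (R : ℤ[X]) (j : ℕ) : ℤ := R.coeff (j + 1) - if j = 0 then 0 else R.coeff (j - 1)

theorem dd_eq (R : ℤ[X]) (m : ℕ) (hdeg : R.natDegree = 2 * (m + 1)) (hm : R.Monic)
    (hrec : ∀ i ≤ 2 * (m + 1), R.coeff (2 * (m + 1) - i) = R.coeff i) :
    X ^ (2 * m + 4) - 1 + ∑ j ∈ Finset.range (m + 1),
      C (dd R j) * (X ^ (2 * (m + 1) - j + 1) - X ^ (j + 1)) = (X ^ 2 - 1) * R := by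
  have hlead : R.coeff (2 * (m + 1)) = 1 := by
    rw [← hdeg]
    exact hm
  have hbig : ∀ i, 2 * (m + 1) < i → R.coeff i = 0 := fun i hi =>
    coeff_eq_zero_of_natDegree_lt (by rw [hdeg]; exact hi)
  have hzero : R.coeff 0 = 1 := by
    have := hrec 0 (Nat.zero_le _)
    rw [Nat.sub_zero, hlead] at this
    exact this.symm
  ext i
  have hR : ((X ^ 2 - 1) * R).coeff i = (if 2 ≤ i then R.coeff (i - 2) else 0) - R.coeff i := by
    rw [sub_mul, one_mul, coeff_sub, coeff_X_pow_mul']
  rw [hR, coeff_add, coeff_sub, coeff_X_pow, coeff_one, finsetSum_coeff]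
  have hS : ∀ j ∈ Finset.range (m + 1),
      (C (dd R j) * (X ^ (2 * (m + 1) - j + 1) - X ^ (j + 1)) : ℤ[X]).coeff i =
      (if i = 2 * (m + 1) - j + 1 then dd R j else 0) - (if i = j + 1 then dd R j else 0) := by
    intro j _
    rw [coeff_C_mul, coeff_sub, coeff_X_pow, coeff_X_pow]
    split_ifs <;> ring
  rw [Finset.sum_congr rfl hS, Finset.sum_sub_distrib]
  have hs1 : ∑ j ∈ Finset.range (m + 1), (if i = 2 * (m + 1) - j + 1 then dd R j else 0) =
      if m + 3 ≤ i ∧ i ≤ 2 * (m + 1) + 1 then dd R (2 * (m + 1) + 1 - i) else 0 := by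
    by_cases h : m + 3 ≤ i ∧ i ≤ 2 * (m + 1) + 1
    · rw [if_pos h, Finset.sum_eq_single (2 * (m + 1) + 1 - i)]
      · rw [if_pos (by omega)]
      · intro b hb hne
        rw [Finset.mem_range] at hb
        rw [if_neg (by omega)]
      · intro h1
        rw [Finset.mem_range] at h1
        omega
    · rw [if_neg h]
      refine Finset.sum_eq_zero fun j hj => ?_
      rw [Finset.mem_range] at hj
      rw [if_neg (by omega)]
  have hs2 : ∑ j ∈ Finset.range (m + 1), (if i = j + 1 then dd R j else 0) =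
      if 1 ≤ i ∧ i ≤ m + 1 then dd R (i - 1) else 0 := by
    by_cases h : 1 ≤ i ∧ i ≤ m + 1
    · rw [if_pos h, Finset.sum_eq_single (i - 1)]
      · rw [if_pos (by omega)]
      · intro b hb hne
        rw [if_neg (by omega)]
      · intro h1
        rw [Finset.mem_range] at h1
        omega
    · rw [if_neg h]
      refine Finset.sum_eq_zero fun j hj => ?_
      rw [Finset.mem_range] at hj
      rw [if_neg (by omega)]
  rw [hs1, hs2]
  rcases Nat.eq_zero_or_pos i with h0 | h0
  · subst h0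
    rw [if_neg (by omega), if_pos rfl, if_neg (by omega), if_neg (by omega), if_neg (by omega),
      hzero]
    ring
  rcases le_or_gt i (m + 1) with h1 | h1
  · rw [if_neg (by omega), if_neg (by omega), if_neg (by omega), if_pos ⟨h0, h1⟩]
    unfold dd
    have h2 : i - 1 + 1 = i := by omega
    rw [h2]
    by_cases h3 : 2 ≤ i
    · have h4 : i - 1 - 1 = i - 2 := by omega
      rw [if_pos h3, if_neg (by omega), h4]
      ring
    · rw [if_neg h3, if_pos (by omega)]
      ring
  rcases eq_or_ne i (m + 2) with h2 | h2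
  · have h3 := hrec m (by omega)
    have h4 : 2 * (m + 1) - m = m + 2 := by omega
    rw [h4] at h3
    subst h2
    rw [if_neg (by omega), if_neg (by omega), if_neg (by omega), if_neg (by omega),
      if_pos (by omega), h3]
    have h5 : m + 2 - 2 = m := by omega
    rw [h5]
    ring
  rcases le_or_gt i (2 * (m + 1) + 1) with h3 | h3
  · have h4 := hrec (i - 2) (by omega)
    have h5 : 2 * (m + 1) - (i - 2) = 2 * (m + 1) + 1 - i + 1 := by omega
    rw [h5] at h4
    rw [if_neg (by omega), if_neg (by omega), if_pos (by omega), if_neg (by omega),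
      if_pos (by omega)]
    unfold dd
    rw [h4]
    rcases eq_or_ne i (2 * (m + 1) + 1) with h6 | h6
    · rw [if_pos (by omega), hbig i (by omega)]
      ring
    · have h7 := hrec i (by omega)
      have h8 : 2 * (m + 1) + 1 - i - 1 = 2 * (m + 1) - i := by omega
      rw [if_neg (by omega), h8, h7]
      ring
  · rw [if_neg (by omega : ¬ i = 0), if_neg (by omega : ¬ (m + 3 ≤ i ∧ i ≤ 2 * (m + 1) + 1)),
      if_neg (by omega : ¬ (1 ≤ i ∧ i ≤ m + 1)), if_pos (by omega : 2 ≤ i), hbig i (by omega)]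
    by_cases h4 : i = 2 * m + 4
    · subst h4
      have h5 : 2 * m + 4 - 2 = 2 * (m + 1) := by omega
      rw [if_pos rfl, h5, hlead]
      ring
    · rw [if_neg h4, hbig (i - 2) (by omega)]
      ring

theorem Rc_matrix (R : ℤ[X]) (m : ℕ) (hdeg : R.natDegree = 2 * (m + 1)) (hm : R.Monic)
    (hrec : ∀ i ≤ 2 * (m + 1), R.coeff (2 * (m + 1) - i) = R.coeff i) :
    Rc (m + 1) (cm m (dd R)).charpoly = R := by
  have h1 := Rc_cm m (dd R)
  rw [dd_eq R m hdeg hm hrec] at h1
  refine mul_left_cancel₀ ?_ h1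
  intro h2
  have h3 := congrArg (fun p : ℤ[X] => p.coeff 0) h2
  simp at h3

theorem abs_coeff_sum (R : ℤ[X]) (N : ℕ) (f : ℕ → ℕ) (hf : Set.InjOn f (Finset.range N)) :
    ∑ j ∈ Finset.range N, |R.coeff (f j)| ≤ len R := by
  classical
  unfold len
  rw [← Finset.sum_image (f := fun i => |R.coeff i|) (fun a ha b hb hab => hf ha hb hab)]
  have h1 : ∑ i ∈ (Finset.range N).image f, |R.coeff i| =
      ∑ i ∈ (Finset.range N).image f ∩ R.support, |R.coeff i| := by
    symm
    refine Finset.sum_subset Finset.inter_subset_left fun i hi hni => ?_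
    have h2 : i ∉ R.support := fun h => hni (Finset.mem_inter.mpr ⟨hi, h⟩)
    rw [notMem_support_iff.mp h2, abs_zero]
  rw [h1]
  exact Finset.sum_le_sum_of_subset_of_nonneg Finset.inter_subset_right
    fun _ _ _ => abs_nonneg _

theorem dd_sum (R : ℤ[X]) (N : ℕ) : ∑ j ∈ Finset.range N, |dd R j| ≤ 2 * len R := by
  have h1 : ∀ j, |dd R j| ≤ |R.coeff (j + 1)| + if j = 0 then 0 else |R.coeff (j - 1)| := by
    intro j
    unfold dd
    refine (abs_sub _ _).trans ?_
    split_ifs <;> simp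
  have h2 := abs_coeff_sum R N (fun j => j + 1) (fun a _ b _ h => Nat.succ_injective h)
  have h3 : ∑ j ∈ Finset.range N, (if j = 0 then 0 else |R.coeff (j - 1)|) ≤ len R := by
    rcases Nat.eq_zero_or_pos N with h | h
    · subst h
      rw [Finset.sum_range_zero]
      exact Finset.sum_nonneg fun _ _ => abs_nonneg _
    · obtain ⟨M, rfl⟩ := Nat.exists_eq_succ_of_ne_zero (by omega : N ≠ 0)
      rw [Finset.sum_range_succ']
      simp only [Nat.add_sub_cancel, Nat.succ_ne_zero, if_false, if_true, add_zero]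
      exact abs_coeff_sum R M (fun j => j) (fun a _ b _ h => h)
  calc ∑ j ∈ Finset.range N, |dd R j|
      ≤ ∑ j ∈ Finset.range N, (|R.coeff (j + 1)| + if j = 0 then 0 else |R.coeff (j - 1)|) :=
        Finset.sum_le_sum fun j _ => h1 j
    _ ≤ 2 * len R := by
        rw [Finset.sum_add_distrib]
        linarith

/-- the asymmetry of the matrix -/
theorem cm_asym (m : ℕ) (d : ℕ → ℤ) (L : ℤ) (hL : ∑ j ∈ Finset.range (m + 1), |d j| ≤ L) :
    ∑ i, ∑ j, (cm m d i j - cm m d j i) ^ 2 ≤ 2 * L ^ 2 := by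
  have hL0 : 0 ≤ L := (Finset.sum_nonneg fun _ _ => abs_nonneg _).trans hL
  have h1 : ∀ i j : Fin (m + 1), (cm m d i j - cm m d j i) ^ 2 ≤
      (if i = 0 then d j ^ 2 else 0) + (if j = 0 then d i ^ 2 else 0) := by
    intro i j
    have h2 : cm m d i j - cm m d j i = (if j = 0 then d i else 0) - (if i = 0 then d j else 0) := by
      rw [cm_apply, cm_apply]
      by_cases h3 : (i : ℕ) + 1 = j ∨ (j : ℕ) + 1 = i
      · rw [if_pos h3, if_pos h3.symm]
        ring
      · rw [if_neg h3, if_neg (show ¬ ((j : ℕ) + 1 = i ∨ (i : ℕ) + 1 = j) from fun h => h3 h.symm)]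
        ring
    rw [h2]
    by_cases hi : i = 0 <;> by_cases hj : j = 0
    · subst hi
      subst hj
      simp only [if_true, sub_self]
      positivity
    · rw [if_pos hi, if_neg hj, if_pos hi, if_neg hj]
      nlinarith
    · rw [if_neg hi, if_pos hj, if_neg hi, if_pos hj]
      nlinarith
    · rw [if_neg hi, if_neg hj, if_neg hi, if_neg hj]
      norm_num
  have h2 : ∑ j : Fin (m + 1), d j ^ 2 ≤ L ^ 2 := by
    have h3 : ∀ j ∈ Finset.range (m + 1), |d j| ≤ L := fun j hj =>
      (Finset.single_le_sum (f := fun j => |d j|) (fun _ _ => abs_nonneg _) hj).trans hL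
    rw [Fin.sum_univ_eq_sum_range (fun j => d j ^ 2) (m + 1)]
    calc ∑ j ∈ Finset.range (m + 1), d j ^ 2 ≤ ∑ j ∈ Finset.range (m + 1), L * |d j| := by
          refine Finset.sum_le_sum fun j hj => ?_
          rw [← sq_abs, sq]
          exact mul_le_mul_of_nonneg_right (h3 j hj) (abs_nonneg _)
      _ = L * ∑ j ∈ Finset.range (m + 1), |d j| := by rw [Finset.mul_sum]
      _ ≤ L ^ 2 := by
          rw [sq]
          exact mul_le_mul_of_nonneg_left hL hL0
  calc ∑ i, ∑ j, (cm m d i j - cm m d j i) ^ 2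
      ≤ ∑ i : Fin (m + 1), ∑ j : Fin (m + 1),
          ((if i = 0 then d j ^ 2 else 0) + (if j = 0 then d i ^ 2 else 0)) :=
        Finset.sum_le_sum fun i _ => Finset.sum_le_sum fun j _ => h1 i j
    _ = ∑ j : Fin (m + 1), d j ^ 2 + ∑ i : Fin (m + 1), d i ^ 2 := by
        simp_rw [Finset.sum_add_distrib]
        congr 1
        · rw [Finset.sum_eq_single (0 : Fin (m + 1))]
          · simp
          · intro b _ hb
            simp [hb]
          · intro h
            exact absurd (Finset.mem_univ _) h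
        · refine Finset.sum_congr rfl fun i _ => ?_
          rw [Finset.sum_ite_eq' Finset.univ (0 : Fin (m + 1)), if_pos (Finset.mem_univ _)]
    _ ≤ 2 * L ^ 2 := by linarith

end

end Q262.NS
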