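import Mathlib
import Pool.Agent.Q262.NS.Asm
import Pool.Agent.W242.IM.Final2

/-!
# Nearly Hermitian matrices: gap and closure
-/

set_option autoImplicit false
set_option linter.unusedSectionVars false

namespace Q262.NS

open MeasureTheory Polynomial Filter Topology Matrix
open Pool.Agent.H261R2.CM (toC LL)
open Pool.Agent.W242.IM

noncomputable section

/-- nearly Hermitian matrices of blocks -/
structure NB {ι Bl : Type} [Fintype ι] [DecidableEq ι] [Fintype Bl] [DecidableEq Bl] (d k : ℕ)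
    (A : Matrix ι ι ℂ) (β : ι → Bl) (Z : Finset Bl) : Prop where
  blk : ∀ b, (pre β {b}).card ≤ d
  card : (pre β Z).card ≤ k
  herm : ∀ i j, β i ∉ Z → A j i = star (A i j)
  frob : ∑ i, ∑ j, ‖A i j - star (A j i)‖ ^ 2 ≤ k
  itg : ∀ U, Disjoint U Z → Itg A (pre β U)

variable {ι Bl : Type} [Fintype ι] [DecidableEq ι] [Fintype Bl] [DecidableEq Bl]

theorem mem_transfer {n : ℕ} (e : ι ≃ Fin n) (β : ι → Bl) (U : Finset Bl) (i : ι) :
    i ∈ pre β U ↔ e i ∈ pre (β ∘ e.symm) U := by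
  rw [mem_pre, mem_pre, Function.comp_apply, Equiv.symm_apply_apply]

theorem card_transfer {n : ℕ} (e : ι ≃ Fin n) (β : ι → Bl) (U : Finset Bl) :
    (pre (β ∘ e.symm) U).card = (pre β U).card :=
  (Finset.card_equiv e (mem_transfer e β U)).symm

theorem cp_transfer {n : ℕ} (e : ι ≃ Fin n) (A : Matrix ι ι ℂ) (β : ι → Bl) (U : Finset Bl) :
    cp (A.submatrix e.symm e.symm) (pre (β ∘ e.symm) U) = cp A (pre β U) := by
  unfold cp
  rw [← charpoly_reindex (e.subtypeEquiv (mem_transfer e β U)) (sm A (pre β U))]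
  rfl

/-- the height bound for general index types -/
theorem height_gen (d k : ℕ) (B : ℝ) : ∃ C : ℝ, ∀ (ι Bl : Type) [Fintype ι] [DecidableEq ι]
    [Fintype Bl] [DecidableEq Bl] (A : Matrix ι ι ℂ) (β : ι → Bl) (Z : Finset Bl),
    NB d k A β Z → mp A.charpoly ≤ B →
      ∃ q : ℤ[X], q.Monic ∧ mp (toC q) = 0 ∧ hp A.charpoly (toC q) ≤ C := by
  obtain ⟨C, hC⟩ := ns_height d k B
  refine ⟨C, fun ι Bl _ _ _ _ A β Z h hB => ?_⟩
  set e := Fintype.equivFin ι
  have h1 : (A.submatrix e.symm e.symm).charpoly = A.charpoly := charpoly_reindex e A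
  have h2 := hC (Fintype.card ι) Bl (A.submatrix e.symm e.symm) (β ∘ e.symm) Z
    (fun b => by rw [card_transfer]; exact h.blk b)
    ⟨by rw [card_transfer]; exact h.card,
      fun i j hi => h.herm (e.symm i) (e.symm j) (fun h3 => hi (mem_pre.mpr h3)), by
        refine le_trans (le_of_eq ?_) h.frob
        rw [← Equiv.sum_comp e]
        refine Finset.sum_congr rfl fun i _ => ?_
        rw [← Equiv.sum_comp e]
        refine Finset.sum_congr rfl fun j _ => ?_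
        simp only [submatrix_apply, Equiv.symm_apply_apply]⟩
    (fun U hU => by
      obtain ⟨p, hp⟩ := h.itg U hU
      exact ⟨p, by rw [hp, cp_transfer]⟩)
    (by rw [h1]; exact hB)
  rw [h1] at h2
  exact h2

/-- the gap -/
theorem gap_gen (d k : ℕ) : ∃ δ : ℝ, 0 < δ ∧ ∀ (ι Bl : Type) [Fintype ι] [DecidableEq ι]
    [Fintype Bl] [DecidableEq Bl] (A : Matrix ι ι ℂ) (β : ι → Bl) (Z : Finset Bl),
    NB d k A β Z → (∃ P : ℤ[X], toC P = A.charpoly) →
      mp A.charpoly = 0 ∨ δ ≤ mp A.charpoly := by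
  obtain ⟨C, hC⟩ := height_gen d k 1
  obtain ⟨δ, hδ, hgap⟩ := pair_gap C
  refine ⟨min δ 1, lt_min hδ one_pos, fun ι Bl _ _ _ _ A β Z h ⟨P, hP⟩ => ?_⟩
  rcases le_or_gt (mp A.charpoly) 1 with h1 | h1
  · obtain ⟨q, hq1, hq2, hq3⟩ := hC ι Bl A β Z h h1
    rw [← hP] at hq3 ⊢
    have hPm : P.Monic := toC_monic (by rw [hP]; exact charpoly_monic _)
    rcases hgap P q hPm hq1.ne_zero
      (fun d _ hd => mp_zero_of_dvd d q hq1.ne_zero hd hq2) hq3 with h2 | h2
    · exact Or.inl h2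
    · exact Or.inr ((min_le_left _ _).trans h2)
  · exact Or.inr ((min_le_right _ _).trans h1.le)

/-- the measures of bounded size belong to a closed set of finite rank -/
theorem LL_gen (d k : ℕ) (m : ℝ) : ∃ K : ℝ, ∀ (ι Bl : Type) [Fintype ι] [DecidableEq ι]
    [Fintype Bl] [DecidableEq Bl] (A : Matrix ι ι ℂ) (β : ι → Bl) (Z : Finset Bl),
    NB d k A β Z → (∃ P : ℤ[X], toC P = A.charpoly) → mp A.charpoly ≤ m →
      Real.exp (mp A.charpoly) ∈ LL K := by
  obtain ⟨C, hC⟩ := height_gen d k m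
  refine ⟨C, fun ι Bl _ _ _ _ A β Z h ⟨P, hP⟩ h1 => ?_⟩
  obtain ⟨q, hq1, hq2, hq3⟩ := hC ι Bl A β Z h h1
  rw [← hP] at hq3 ⊢
  have hPm : P.Monic := toC_monic (by rw [hP]; exact charpoly_monic _)
  exact pair_LL P q hPm hq1.ne_zero (fun d _ hd => mp_zero_of_dvd d q hq1.ne_zero hd hq2) C hq3

/-! ### Matrices of blocks -/

/-- nearly Hermitian matrices of `d × d` blocks -/
structure NC {n d : ℕ} (k : ℕ) (A : Matrix (Fin n × Fin d) (Fin n × Fin d) ℂ)
    (Z : Finset (Fin n)) : Prop where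
  card : Z.card ≤ k
  herm : ∀ i j, i.1 ∉ Z → A j i = star (A i j)
  frob : ∑ i, ∑ j, ‖A i j - star (A j i)‖ ^ 2 ≤ k
  itg : ∀ U, Disjoint U Z → ∃ P : ℤ[X], toC P = (blk A U).charpoly
  int : ∃ P : ℤ[X], toC P = A.charpoly

theorem NC.nb {n d k : ℕ} {A : Matrix (Fin n × Fin d) (Fin n × Fin d) ℂ} {Z : Finset (Fin n)}
    (h : NC k A Z) : NB d (k * (d + 1)) A Prod.fst Z := by
  have hb : ∀ b, (pre (Prod.fst : Fin n × Fin d → Fin n) {b}).card ≤ d := fun b => by
    rw [pre_fst_card, Fintype.card_fin]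
  refine ⟨hb, ?_, h.herm, ?_, fun U hU => ?_⟩
  · refine (pre_card_le hb Z).trans ((Nat.mul_le_mul_right d h.card).trans ?_)
    exact Nat.mul_le_mul_left k (Nat.le_succ d)
  · refine h.frob.trans ?_
    have h1 : k ≤ k * (d + 1) := Nat.le_mul_of_pos_right k (Nat.succ_pos d)
    exact_mod_cast h1
  · obtain ⟨P, hP⟩ := h.itg U hU
    exact ⟨P, by rw [hP, blk_charpoly]⟩

theorem gap_blocks (d k : ℕ) : ∃ μ : ℝ, 1 < μ ∧ ∀ (n : ℕ)
    (A : Matrix (Fin n × Fin d) (Fin n × Fin d) ℂ) (Z : Finset (Fin n)), NC k A Z →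
      MM A.charpoly = 1 ∨ μ ≤ MM A.charpoly := by
  obtain ⟨δ, hδ, h⟩ := gap_gen d (k * (d + 1))
  refine ⟨Real.exp δ, Real.one_lt_exp_iff.mpr hδ, fun n A Z hA => ?_⟩
  rw [MM_charpoly hA.int]
  exact MM_alt (h _ _ A Prod.fst Z hA.nb hA.int)

/-- the set of the measures -/
def TC (d k : ℕ) : Set ℝ := {x : ℝ | ∃ (n : ℕ) (A : Matrix (Fin n × Fin d) (Fin n × Fin d) ℂ)
  (Z : Finset (Fin n)), NC k A Z ∧ x = MM A.charpoly}

theorem TC_LL (d k : ℕ) (B : ℝ) : ∃ K : ℝ, TC d k ∩ Set.Iio B ⊆ LL K := by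
  obtain ⟨K, hK⟩ := LL_gen d (k * (d + 1)) (Real.log (max B 1))
  refine ⟨K, ?_⟩
  rintro x ⟨⟨n, A, Z, hA, rfl⟩, hx⟩
  rw [MM_charpoly hA.int] at hx ⊢
  exact hK _ _ A Prod.fst Z hA.nb hA.int (mp_le_of_exp hx)

/-! ### Integer matrices -/

variable {n : ℕ}

/-- integer matrices with bounded asymmetry -/
theorem nb_int {k : ℕ} (A : Matrix (Fin n) (Fin n) ℤ)
    (hA : ∑ i, ∑ j, (A i j - A j i) ^ 2 ≤ (k : ℤ)) :
    NB 1 k (A.map (Int.castRingHom ℂ)) (id : Fin n → Fin n)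
      (Finset.univ.filter fun i => ∃ j, A i j ≠ A j i) := by
  classical
  set Z : Finset (Fin n) := Finset.univ.filter fun i => ∃ j, A i j ≠ A j i with hZ
  have hpre : ∀ U : Finset (Fin n), pre (id : Fin n → Fin n) U = U := fun U => by
    ext i
    rw [mem_pre, id]
  refine ⟨fun b => by rw [hpre, Finset.card_singleton], ?_, ?_, ?_, fun U _ => ?_⟩
  · rw [hpre]
    have h1 : (Z.card : ℤ) ≤ ∑ i, ∑ j, (A i j - A j i) ^ 2 := by
      have h2 : (Z.card : ℤ) = ∑ i, if (∃ j, A i j ≠ A j i) then 1 else 0 := by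
        rw [Finset.sum_boole]
      rw [h2]
      refine Finset.sum_le_sum fun i _ => ?_
      split_ifs with h3
      · obtain ⟨j, hj⟩ := h3
        have h4 : (1:ℤ) ≤ (A i j - A j i) ^ 2 := by
          have h5 : A i j - A j i ≠ 0 := sub_ne_zero.mpr hj
          have h6 : 0 < (A i j - A j i) ^ 2 := by positivity
          omega
        exact h4.trans (Finset.single_le_sum (f := fun j => (A i j - A j i) ^ 2)
          (fun _ _ => sq_nonneg _) (Finset.mem_univ j))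
      · exact Finset.sum_nonneg fun _ _ => sq_nonneg _
    exact_mod_cast h1.trans hA
  · intro i j hi
    have h1 : A i j = A j i := by
      by_contra h2
      exact hi (Finset.mem_filter.mpr ⟨Finset.mem_univ _, j, h2⟩)
    simp only [Matrix.map_apply, h1]
    simp
  · have h1 : ∑ i, ∑ j, ‖(A.map (Int.castRingHom ℂ)) i j -
        star ((A.map (Int.castRingHom ℂ)) j i)‖ ^ 2 =
        ((∑ i, ∑ j, (A i j - A j i) ^ 2 : ℤ) : ℝ) := by
      push_cast
      refine Finset.sum_congr rfl fun i _ => Finset.sum_congr rfl fun j _ => ?_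
      simp only [Matrix.map_apply]
      have h2 : ((Int.castRingHom ℂ) (A i j) - star ((Int.castRingHom ℂ) (A j i))) =
          (((A i j - A j i : ℤ) : ℝ) : ℂ) := by
        simp
      rw [h2, Complex.norm_real, Real.norm_eq_abs, sq_abs]
      push_cast
      ring
    rw [h1]
    exact_mod_cast hA
  · refine ⟨(A.submatrix (Subtype.val : pre (id : Fin n → Fin n) U → Fin n)
      Subtype.val).charpoly, ?_⟩
    unfold toC cp
    rw [← charpoly_map]
    rfl

theorem gap_int (k : ℕ) : ∃ μ : ℝ, 1 < μ ∧ ∀ (n : ℕ) (A : Matrix (Fin n) (Fin n) ℤ),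
    ∑ i, ∑ j, (A i j - A j i) ^ 2 ≤ (k : ℤ) →
      MM (toC A.charpoly) = 1 ∨ μ ≤ MM (toC A.charpoly) := by
  obtain ⟨δ, hδ, h⟩ := gap_gen 1 k
  refine ⟨Real.exp δ, Real.one_lt_exp_iff.mpr hδ, fun n A hA => ?_⟩
  have h1 : toC A.charpoly = (A.map (Int.castRingHom ℂ)).charpoly := by
    unfold toC
    rw [← charpoly_map]
  have h2 : ∃ P : ℤ[X], toC P = (A.map (Int.castRingHom ℂ)).charpoly := ⟨_, h1⟩
  rw [h1, MM_charpoly h2]
  exact MM_alt (h _ _ _ _ _ (nb_int A hA) h2)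

end

end Q262.NS
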