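import Mathlib
import Pool.Agent.Q262.NS.Gen
import Pool.Agent.Q262.FR.Main

/-!
# Nearly Hermitian matrices: polynomials of bounded length
-/

set_option autoImplicit false
set_option linter.unusedSectionVars false

namespace Q262.NS

open MeasureTheory Polynomial Filter Topology Matrix
open Pool.Agent.H261R2.CM (toC m1 len mx1 ev1)
open Pool.Agent.W242.IM

noncomputable section

theorem m1_exp (p : ℤ[X]) (hp : p ≠ 0) : m1 (Rc p.natDegree p) = Real.exp (mp (toC p)) := by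
  rw [mp_eq_log_m1 _ p le_rfl, Real.exp_log]
  exact lt_of_lt_of_le one_pos (Pool.Agent.H261R2.CM.I1_one_le_m1 (Rc_ne _ _ le_rfl hp))

/-- pairs of bounded height with a second member of measure one: bounded length -/
theorem pair_str (K : ℝ) : ∃ L : ℕ, ∀ p q : ℤ[X], p.Monic → q.Monic → mp (toC q) = 0 →
    hp (toC p) (toC q) ≤ K → ∃ Φ Ψ R : ℤ[X], m1 Φ = 1 ∧ m1 Ψ = 1 ∧
      Rc p.natDegree p * Φ = R * Ψ ∧ len R ≤ L := by
  obtain ⟨μ, L, -, hL⟩ := Q262.FR.pair_cyc K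
  refine ⟨L, fun p q hpm hqm hq0 hK => ?_⟩
  have hq : q ≠ 0 := hqm.ne_zero
  obtain ⟨a, b, d, hab, ha, hb⟩ :=
    UniqueFactorizationMonoid.exists_reduced_factors p hpm.ne_zero q
  have hd0 : d ≠ 0 := by
    rintro rfl
    exact hpm.ne_zero (by rw [← ha, zero_mul])
  have ha0 : a ≠ 0 := by
    rintro rfl
    exact hpm.ne_zero (by rw [← ha, mul_zero])
  have hb0 : b ≠ 0 := by
    rintro rfl
    exact hq (by rw [← hb, mul_zero])
  have hu : IsUnit a.leadingCoeff := by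
    have h1 : d.leadingCoeff * a.leadingCoeff = 1 := by
      rw [← leadingCoeff_mul, ha]
      exact hpm
    exact isUnit_iff_exists_inv.mpr ⟨d.leadingCoeff, by rw [mul_comm]; exact h1⟩
  have hd : mp (toC d) = 0 := mp_zero_of_dvd d q hq ⟨b, hb.symm⟩ hq0
  have hbm : mp (toC b) = 0 := mp_zero_of_dvd b q hq ⟨d, by rw [mul_comm]; exact hb.symm⟩ hq0
  have h1 := Pool.Agent.H261R2.CM.mx1_mul (Rc d.natDegree d) (Rc a.natDegree a) (Rc b.natDegree b)
    (Rc_ne _ _ le_rfl hd0) (Rc_ne _ _ le_rfl ha0)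
  rw [← mp_eq_log_m1 _ d le_rfl, hd] at h1
  have h2 : mx1 (Rc d.natDegree d * Rc a.natDegree a) (Rc d.natDegree d * Rc b.natDegree b) =
      hp (toC p) (toC q) := by
    rw [← Rc_mul _ _ _ _ le_rfl le_rfl, ← Rc_mul _ _ _ _ le_rfl le_rfl, ha, hb]
    unfold mx1 hp
    refine intervalIntegral.integral_congr fun t _ => ?_
    show Real.log (max ‖ev1 _ t‖ ‖ev1 _ t‖) = _
    rw [norm_ev1_Rc _ p (by rw [← ha]; exact natDegree_mul_le),
      norm_ev1_Rc _ q (by rw [← hb]; exact natDegree_mul_le)]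
  rw [h2] at h1
  have hbm1 : m1 (Rc b.natDegree b) = 1 := by
    rw [m1_exp b hb0, hbm, Real.exp_zero]
  obtain ⟨-, Φ, -, hΦ1, hΦL⟩ := hL (Rc a.natDegree a) (Rc b.natDegree b)
    (Rc_ne _ _ le_rfl ha0) (Rc_ne _ _ le_rfl hb0) (relPrime_Rc a b hu hab) hbm1
    (by linarith)
  refine ⟨Φ, Rc d.natDegree d, Rc a.natDegree a * Φ, hΦ1, ?_, ?_, hΦL⟩
  · rw [m1_exp d hd0, hd, Real.exp_zero]
  · have h3 : p.natDegree = d.natDegree + a.natDegree := by
      rw [← ha, natDegree_mul hd0 ha0]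
    rw [h3, ← ha, Rc_mul _ _ _ _ le_rfl le_rfl]
    ring

/-- nearly Hermitian matrices of bounded measure have polynomials of bounded length, up to
polynomials of measure one -/
theorem str_gen (d k : ℕ) (B : ℝ) : ∃ L : ℕ, ∀ (ι Bl : Type) [Fintype ι] [DecidableEq ι]
    [Fintype Bl] [DecidableEq Bl] (A : Matrix ι ι ℂ) (β : ι → Bl) (Z : Finset Bl) (P : ℤ[X]),
    NB d k A β Z → toC P = A.charpoly → m1 (Rc P.natDegree P) ≤ B →
      ∃ Φ Ψ R : ℤ[X], m1 Φ = 1 ∧ m1 Ψ = 1 ∧ Rc P.natDegree P * Φ = R * Ψ ∧ len R ≤ L := by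
  obtain ⟨C, hC⟩ := height_gen d k (Real.log (max B 1))
  obtain ⟨L, hL⟩ := pair_str C
  refine ⟨L, fun ι Bl _ _ _ _ A β Z P h hP hB => ?_⟩
  have hPm : P.Monic := toC_monic (by rw [hP]; exact charpoly_monic _)
  obtain ⟨q, hq1, hq2, hq3⟩ := hC ι Bl A β Z h (by
    rw [← hP, mp_eq_log_m1 _ P le_rfl]
    have h1 : 1 ≤ m1 (Rc P.natDegree P) :=
      Pool.Agent.H261R2.CM.I1_one_le_m1 (Rc_ne _ _ le_rfl hPm.ne_zero)
    exact Real.log_le_log (by linarith) (hB.trans (le_max_left _ _)))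
  rw [← hP] at hq3
  exact hL P q hPm hq1 hq2 hq3

end

end Q262.NS
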