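import Mathlib
import Pool.Agent.Q262.NS.Str
import Pool.Agent.Q262.NS.Col2

/-!
# Nearly symmetric integer matrices: final lemmas
-/

set_option autoImplicit false
set_option linter.unusedSectionVars false

namespace Q262.NS

open MeasureTheory Polynomial Filter Topology Matrix
open Pool.Agent.H261R2.CM (toC m1 len LL)
open Pool.Agent.W242.IM
open NumberField

noncomputable section

theorem NC.gap (d k : ℕ) : ∃ μ : ℝ, 1 < μ ∧ ∀ (n : ℕ)
    (A : Matrix (Fin n × Fin d) (Fin n × Fin d) ℂ) (Z : Finset (Fin n)) (P : ℤ[X]), NC k A Z →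
      toC P = A.charpoly → m1 (Rc P.natDegree P) = 1 ∨ μ ≤ m1 (Rc P.natDegree P) := by
  obtain ⟨μ, hμ, h⟩ := gap_blocks d k
  refine ⟨μ, hμ, fun n A Z P hA hP => ?_⟩
  have hP0 : P ≠ 0 := toC_charpoly_ne hP
  have h1 := h n A Z hA
  rw [← hP, MM_toC P hP0, ← m1_exp P hP0] at h1
  exact h1

theorem NC.str (d k : ℕ) (B : ℝ) : ∃ L : ℕ, ∀ (n : ℕ)
    (A : Matrix (Fin n × Fin d) (Fin n × Fin d) ℂ) (Z : Finset (Fin n)) (P : ℤ[X]), NC k A Z →
      toC P = A.charpoly → m1 (Rc P.natDegree P) ≤ B →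
      ∃ Φ Ψ R : ℤ[X], m1 Φ = 1 ∧ m1 Ψ = 1 ∧ Rc P.natDegree P * Φ = R * Ψ ∧ len R ≤ L := by
  obtain ⟨L, h⟩ := str_gen d (k * (d + 1)) B
  exact ⟨L, fun n A Z P hA hP hB => h _ _ A Prod.fst Z P hA.nb hP hB⟩

/-- integer matrices as matrices of `1 × 1` blocks -/
def blow {n : ℕ} (A : Matrix (Fin n) (Fin n) ℤ) : Matrix (Fin n × Fin 1) (Fin n × Fin 1) ℂ :=
  (A.map (Int.castRingHom ℂ)).submatrix Prod.fst Prod.fst

theorem blow_charpoly {n : ℕ} (A : Matrix (Fin n) (Fin n) ℤ) :
    (blow A).charpoly = toC A.charpoly := by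
  have h1 := charpoly_reindex (Equiv.prodUnique (Fin n) (Fin 1)).symm (A.map (Int.castRingHom ℂ))
  have h2 : (reindex (Equiv.prodUnique (Fin n) (Fin 1)).symm
      (Equiv.prodUnique (Fin n) (Fin 1)).symm) (A.map (Int.castRingHom ℂ)) = blow A := rfl
  rw [h2] at h1
  rw [h1]
  unfold toC
  rw [charpoly_map]

theorem blow_blk {n : ℕ} (A : Matrix (Fin n) (Fin n) ℤ) (U : Finset (Fin n)) :
    (blk (blow A) U).charpoly = toC (A.submatrix (Subtype.val : U → Fin n) Subtype.val).charpoly := by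
  set B := A.submatrix (Subtype.val : U → Fin n) Subtype.val with hB
  have h1 := charpoly_reindex (Equiv.prodUnique U (Fin 1)).symm (B.map (Int.castRingHom ℂ))
  have h2 : (reindex (Equiv.prodUnique U (Fin 1)).symm
      (Equiv.prodUnique U (Fin 1)).symm) (B.map (Int.castRingHom ℂ)) = blk (blow A) U := rfl
  rw [h2] at h1
  rw [h1]
  unfold toC
  rw [charpoly_map]

theorem blow_NC {n k : ℕ} (A : Matrix (Fin n) (Fin n) ℤ)
    (hA : ∑ i, ∑ j, (A i j - A j i) ^ 2 ≤ (k : ℤ)) :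
    NC k (blow A) (Finset.univ.filter fun i => ∃ j, A i j ≠ A j i) := by
  classical
  have h := nb_int A hA
  have hpre : ∀ U : Finset (Fin n), pre (id : Fin n → Fin n) U = U := fun U => by
    ext i
    rw [mem_pre, id]
  refine ⟨by rw [← hpre (Finset.univ.filter fun i => ∃ j, A i j ≠ A j i)]; exact h.card,
    fun i j hi => h.herm i.1 j.1 hi, ?_, fun U _ => ⟨_, (blow_blk A U).symm⟩,
    ⟨_, (blow_charpoly A).symm⟩⟩
  refine le_trans (le_of_eq ?_) h.frob
  rw [← Equiv.sum_comp (Equiv.prodUnique (Fin n) (Fin 1)).symm]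
  refine Finset.sum_congr rfl fun i _ => ?_
  rw [← Equiv.sum_comp (Equiv.prodUnique (Fin n) (Fin 1)).symm]
  rfl

/-- nearly Hermitian matrices over number fields -/
theorem nf_near (d k : ℕ) (K : Type) [Field K] [NumberField K] (hd : Module.finrank ℚ K = d)
    (n : ℕ) (A : Matrix (Fin n) (Fin n) (𝓞 K)) (Z : Finset (Fin n)) (hZ : Z.card ≤ k)
    (hH : ∀ (σ : K →+* ℂ) (i j : Fin n), i ∉ Z → emb σ (A j i) = star (emb σ (A i j)))
    (hF : ∑ σ : K →+* ℂ, ∑ i, ∑ j, ‖emb σ (A i j) - star (emb σ (A j i))‖ ^ 2 ≤ k) :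
    ∃ B : Matrix (Fin n × Fin d) (Fin n × Fin d) ℂ, NC k B Z ∧
      B.charpoly = ∏ σ : K →+* ℂ, (A.map (emb σ)).charpoly := by
  have h1 : Fintype.card (K →+* ℂ) = d := (embCard K).trans hd
  obtain ⟨e⟩ : Nonempty (Fin d ≃ (K →+* ℂ)) := ⟨(Fintype.equivFinOfCardEq h1).symm⟩
  set M : Fin d → Matrix (Fin n) (Fin n) ℂ := fun i => A.map (emb (e i)) with hM
  have hch : (blockDiagonal M).charpoly = ∏ σ : K →+* ℂ, (A.map (emb σ)).charpoly := by
    rw [charpoly_blockDiagonal, ← Equiv.prod_comp e]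
  refine ⟨blockDiagonal M, ⟨hZ, ?_, ?_, fun U _ => ?_, ?_⟩, hch⟩
  · rintro ⟨i, a⟩ ⟨j, b⟩ hi
    rw [blockDiagonal_apply, blockDiagonal_apply]
    by_cases hab : a = b
    · subst hab
      rw [if_pos rfl, if_pos rfl]
      exact hH (e a) i j hi
    · rw [if_neg hab, if_neg (fun h => hab h.symm), star_zero]
  · refine le_trans (le_of_eq ?_) hF
    rw [← Equiv.sum_comp e, Fintype.sum_prod_type, Finset.sum_comm]
    refine Finset.sum_congr rfl fun a _ => ?_
    refine Finset.sum_congr rfl fun i _ => ?_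
    rw [Fintype.sum_prod_type]
    refine Finset.sum_congr rfl fun j _ => ?_
    rw [Finset.sum_eq_single a]
    · rw [blockDiagonal_apply, blockDiagonal_apply, if_pos rfl, if_pos rfl]
      rfl
    · intro b _ hb
      rw [blockDiagonal_apply, blockDiagonal_apply, if_neg hb, if_neg (fun h => hb h.symm)]
      simp
    · intro h
      exact absurd (Finset.mem_univ _) h
  · have h2 := cp_blockDiagonal M U
    obtain ⟨P, hP⟩ := normPoly_int K (A.submatrix (Subtype.val : U → Fin n) Subtype.val).charpoly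
    refine ⟨P, ?_⟩
    rw [hP, blk_charpoly, h2]
    unfold normPoly
    rw [← Equiv.prod_comp e]
    refine Finset.prod_congr rfl fun σ _ => ?_
    rw [← charpoly_map]
    rfl
  · obtain ⟨P, hP⟩ := normPoly_int K A.charpoly
    refine ⟨P, ?_⟩
    rw [hP, hch]
    unfold normPoly
    refine Finset.prod_congr rfl fun σ _ => ?_
    rw [← charpoly_map]

/-- every reciprocal polynomial of even degree is the polynomial of an integer matrix whose
asymmetry is bounded in terms of the length -/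
theorem recip_matrix (L n : ℕ) (R : ℤ[X]) (hm : R.Monic) (hr : R.reverse = R)
    (hdeg : R.natDegree = 2 * n) (hL : len R ≤ L) :
    ∃ (n : ℕ) (A : Matrix (Fin n) (Fin n) ℤ),
      ∑ i, ∑ j, (A i j - A j i) ^ 2 ≤ ((8 * L ^ 2 : ℕ) : ℤ) ∧
        Rc A.charpoly.natDegree A.charpoly = R := by
  rcases Nat.eq_zero_or_pos n with h0 | h0
  · subst h0
    have h1 : R = 1 := by
      rw [mul_zero] at hdeg
      exact hm.natDegree_eq_zero.mp hdeg
    refine ⟨0, 0, ?_, ?_⟩
    · rw [Finset.univ_eq_empty, Finset.sum_empty]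
      exact Nat.cast_nonneg _
    · have h2 : (0 : Matrix (Fin 0) (Fin 0) ℤ).charpoly = 1 := by
        unfold Matrix.charpoly
        exact det_isEmpty
      rw [h2, natDegree_one, Rc_one, pow_zero, h1]
  · obtain ⟨m, rfl⟩ := Nat.exists_eq_succ_of_ne_zero (by omega : n ≠ 0)
    have hrec : ∀ i ≤ 2 * (m + 1), R.coeff (2 * (m + 1) - i) = R.coeff i := by
      intro i hi
      have h1 := coeff_reverse R i
      rw [hr, hdeg, revAt_le hi] at h1
      exact h1.symm
    refine ⟨m + 1, cm m (dd R), ?_, ?_⟩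
    · refine (cm_asym m (dd R) (2 * len R) (dd_sum R _)).trans ?_
      have h0 : 0 ≤ len R := Finset.sum_nonneg fun _ _ => abs_nonneg _
      push_cast
      nlinarith
    · have h1 : (cm m (dd R)).charpoly.natDegree = m + 1 := by
        rw [charpoly_natDegree_eq_dim, Fintype.card_fin]
      rw [h1]
      exact Rc_matrix R m hdeg hm hrec

end

end Q262.NS
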